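import Pool.Agent.K3h13.TC.Cycle

/-!
# Counting attachments to a longest cycle
-/

set_option autoImplicit false
set_option linter.unusedSectionVars false

namespace K3h13.TC

open Finset R698.TC
open scoped Classical

variable {V : Type*} {B : SimpleGraph V} {C : Finset V} {σ : V → V}

/-- the neighbours of `u` in `C` -/
noncomputable def At (B : SimpleGraph V) (C : Finset V) (u : V) : Finset V :=
  C.filter (fun v => B.Adj u v)

theorem mem_At {u v : V} : v ∈ At B C u ↔ v ∈ C ∧ B.Adj u v := by simp [At]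

theorem card_At (u : V) : (At B C u).card = dg B u C := rfl

theorem At_subset (u : V) : At B C u ⊆ C := filter_subset _ _

/-- the successors of the attachments of `u` -/
noncomputable def Qs (B : SimpleGraph V) (C : Finset V) (σ : V → V) (u : V) : Finset V :=
  (At B C u).image σ

theorem LC.image_card (h : LC B C σ) {S : Finset V} (hS : S ⊆ C) : (S.image σ).card = S.card :=
  card_image_of_injOn fun a ha b hb hab => h.inj a (hS ha) b (hS hb) hab

theorem LC.image_sub (h : LC B C σ) {S : Finset V} (hS : S ⊆ C) : S.image σ ⊆ C := by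
  intro v hv
  obtain ⟨w, hw, rfl⟩ := mem_image.1 hv
  exact h.maps w (hS hw)

theorem LC.image_eq (h : LC B C σ) : C.image σ = C :=
  eq_of_subset_of_card_le (h.image_sub subset_rfl) (by rw [h.image_card subset_rfl])

theorem LC.Qs_card (h : LC B C σ) (u : V) : (Qs B C σ u).card = (At B C u).card :=
  h.image_card (At_subset u)

theorem LC.Qs_sub (h : LC B C σ) (u : V) : Qs B C σ u ⊆ C := h.image_sub (At_subset u)

theorem LC.Qs_not (h : LC B C σ) {u w : V} (hu : u ∉ C) (hw : w ∈ Qs B C σ u) : ¬ B.Adj u w := by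
  obtain ⟨v, hv, rfl⟩ := mem_image.1 hw
  rw [mem_At] at hv
  exact h.one u hu v hv.1 hv.2

theorem LC.Qs_one (h : LC B C σ) {u u' w w' : V} (hu : u ∉ C) (hu' : u' ∉ C)
    (hw : w ∈ Qs B C σ u) (hw' : w' ∈ Qs B C σ u) (h1 : B.Adj u' w) (h2 : B.Adj u' w') :
    w = w' := by
  by_cases huu : u = u'
  · subst huu
    exact absurd h1 (h.Qs_not hu hw)
  · obtain ⟨v, hv, rfl⟩ := mem_image.1 hw
    obtain ⟨v', hv', rfl⟩ := mem_image.1 hw'
    rw [mem_At] at hv hv'
    rw [h.two u hu u' hu' huu v hv.1 v' hv'.1 hv.2 h1 hv'.2 h2]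

theorem LC.Qs_clique (h : LC B C σ) {u w w' : V} (hu : u ∉ C)
    (hw : w ∈ Qs B C σ u) (hw' : w' ∈ Qs B C σ u) : ¬ B.Adj w w' := by
  intro h1
  obtain ⟨v, hv, rfl⟩ := mem_image.1 hw
  obtain ⟨v', hv', rfl⟩ := mem_image.1 hw'
  rw [mem_At] at hv hv'
  refine h.three u hu v hv.1 v' hv'.1 ?_ hv.2 hv'.2 h1
  rintro rfl
  exact B.loopless.irrefl _ h1

theorem LC.half (h : LC B C σ) {u : V} (hu : u ∉ C) : 2 * (At B C u).card ≤ C.card := by
  have h1 : Disjoint (At B C u) (Qs B C σ u) := by
    rw [Finset.disjoint_left]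
    intro v hv hv'
    exact h.Qs_not hu hv' (mem_At.1 hv).2
  have h2 := card_le_card (union_subset (At_subset (B := B) (C := C) u) (h.Qs_sub u))
  rw [card_union_of_disjoint h1, h.Qs_card] at h2
  omega

/-- the set of vertices of `C` attached to a set `J` outside of `C` -/
theorem LC.fact4 (h : LC B C σ) (J : Finset V) (hJ : ∀ u ∈ J, u ∉ C) :
    2 * (J.biUnion (At B C)).card ≤ C.card + J.card * (J.card - 1) := by
  set W := J.biUnion (At B C) with hW
  have hWC : W ⊆ C := by
    rw [hW, biUnion_subset]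
    intro u _
    exact At_subset u
  have h1 := card_union_add_card_inter W (W.image σ)
  rw [h.image_card hWC] at h1
  have h2 := card_le_card (union_subset hWC (h.image_sub hWC))
  have h3 : W ∩ W.image σ ⊆ J.offDiag.biUnion
      (fun p => ((At B C p.1).filter (fun v => B.Adj p.2 (σ v))).image σ) := by
    intro w hw
    rw [mem_inter] at hw
    obtain ⟨hw1, hw2⟩ := hw
    obtain ⟨v, hv, rfl⟩ := mem_image.1 hw2
    rw [hW, mem_biUnion] at hw1 hv
    obtain ⟨u', hu', hu'v⟩ := hw1
    obtain ⟨u, hu, huv⟩ := hv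
    rw [mem_biUnion]
    refine ⟨(u, u'), ?_, ?_⟩
    · rw [mem_offDiag]
      refine ⟨hu, hu', ?_⟩
      rintro h5
      simp only at h5
      subst h5
      exact h.one u (hJ u hu) v (mem_At.1 huv).1 (mem_At.1 huv).2 (mem_At.1 hu'v).2
    · exact mem_image_of_mem _ (mem_filter.2 ⟨huv, (mem_At.1 hu'v).2⟩)
  have h4 : (W ∩ W.image σ).card ≤ J.offDiag.card * 1 := by
    refine (card_le_card h3).trans (card_biUnion_le_card_mul _ _ _ ?_)
    intro p hp
    rw [mem_offDiag] at hp
    refine card_image_le.trans ?_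
    rw [card_le_one]
    intro a ha b hb
    rw [mem_filter, mem_At] at ha hb
    exact h.two p.1 (hJ _ hp.1) p.2 (hJ _ hp.2.1) hp.2.2 a ha.1.1 b hb.1.1 ha.1.2 ha.2 hb.1.2 hb.2
  rw [offDiag_card, mul_one] at h4
  have h5 : J.card * (J.card - 1) = J.card * J.card - J.card := by
    rw [Nat.mul_sub, mul_one]
  omega

theorem bu_le (J : Finset V) {M : ℕ} (hM : ∀ u ∈ J, (At B C u).card ≤ M) :
    (J.biUnion (At B C)).card ≤ J.card * M :=
  card_biUnion_le_card_mul _ _ _ hM

/-- there is a vertex on the cycle with few attachments whose predecessor is attached to a vertex with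
many attachments -/
theorem LC.exists_low (h : LC B C σ) (H : Finset V) (hHC : H.card < C.card)
    (hpos : ∀ v ∈ C, 1 ≤ (H.filter (fun u => B.Adj v u)).card) :
    ∃ u ∈ H, ∃ v ∈ At B C u, (H.filter (fun u' => B.Adj (σ v) u')).card < (At B C u).card := by
  by_contra hcon
  push Not at hcon
  set β : V → ℕ := fun v => (H.filter (fun u => B.Adj v u)).card with hβ
  have hβr : ∀ v ∈ C, (0 : ℝ) < β v := fun v hv => by exact_mod_cast hpos v hv
  -- lower bound
  have h1 : (C.card : ℝ) ≤ ∑ v ∈ C, (β v : ℝ) / β (σ v) := by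
    have h2 : ∀ v ∈ C, 1 + (Real.log (β v) - Real.log (β (σ v))) ≤ (β v : ℝ) / β (σ v) := by
      intro v hv
      have h3 := hβr v hv
      have h4 := hβr _ (h.maps v hv)
      have h5 := Real.log_le_sub_one_of_pos (div_pos h3 h4)
      rw [Real.log_div h3.ne' h4.ne'] at h5
      linarith
    refine le_trans (le_of_eq ?_) (sum_le_sum h2)
    rw [sum_add_distrib, sum_sub_distrib]
    have h6 : ∑ v ∈ C, Real.log (β (σ v)) = ∑ v ∈ C, Real.log (β v) := by
      conv_rhs => rw [← h.image_eq]
      rw [sum_image fun a ha b hb hab => h.inj a ha b hb hab]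
    rw [h6]
    simp
  -- upper bound
  have h2 : ∑ v ∈ C, (β v : ℝ) / β (σ v) ≤ H.card := by
    have h3 : ∀ v ∈ C, (β v : ℝ) / β (σ v) ≤
        ∑ u ∈ H, if B.Adj v u then (1 : ℝ) / (At B C u).card else 0 := by
      intro v hv
      rw [← sum_filter]
      have h4 : ∀ u ∈ H.filter (fun u => B.Adj v u), (1 : ℝ) / β (σ v) ≤ 1 / (At B C u).card := by
        intro u hu
        rw [mem_filter] at hu
        have h5 := hcon u hu.1 v (mem_At.2 ⟨hv, hu.2.symm⟩)
        have h6 : 0 < (At B C u).card := card_pos.2 ⟨v, mem_At.2 ⟨hv, hu.2.symm⟩⟩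
        apply one_div_le_one_div_of_le
        · exact_mod_cast h6
        · exact_mod_cast h5
      have h5 := sum_le_sum h4
      rw [sum_const, nsmul_eq_mul] at h5
      rw [div_eq_mul_one_div]
      exact h5
    refine (sum_le_sum h3).trans ?_
    rw [sum_comm]
    have h4 : ∀ u ∈ H, ∑ v ∈ C, (if B.Adj v u then (1 : ℝ) / (At B C u).card else 0) ≤ 1 := by
      intro u _
      rw [← sum_filter]
      have h5 : C.filter (fun v => B.Adj v u) = At B C u := by
        ext v; simp [At, B.adj_comm]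
      rw [h5, sum_const, nsmul_eq_mul]
      rcases Nat.eq_zero_or_pos (At B C u).card with h6 | h6
      · rw [h6]; simp
      · rw [mul_one_div, div_self]
        exact_mod_cast h6.ne'
    refine (sum_le_sum h4).trans ?_
    simp
  have h3 := h1.trans h2
  have h4 : C.card ≤ H.card := by exact_mod_cast h3
  omega

end K3h13.TC
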