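import Pool.Agent.K3h13.TC.Cycle

/-!
# Vertices of large degree outside a longest cycle

Let `C` be a longest cycle of a graph `B` on `2 n - 1` vertices, `c ≥ n + 1` its length and `Z` the set
of the remaining `z = 2 n - 1 - c` vertices.  At most `(z + 1) / 4` vertices of `Z` have degree at
least `n`.
-/

set_option autoImplicit false
set_option linter.unusedSectionVars false

namespace K3h13.TC

open Finset R698.TC
open scoped Classical

variable {V : Type*} {B : SimpleGraph V}

/-- the two ends of a path outside a longest cycle -/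
theorem four {c : ℕ} {z : ℕ → V} (h : Per B c z) (hno : ∀ l, c < l → ¬ HasC B Set.univ l)
    {p : ℕ} (hp : 1 ≤ p) {y : ℕ → V} (yinj : ∀ i < p, ∀ j < p, y i = y j → i = j)
    (yadj : ∀ i, i + 1 < p → B.Adj (y i) (y (i + 1))) (yout : ∀ i < p, y i ∉ cs c z)
    (hne : ∃ v ∈ cs c z, B.Adj (y (p - 1)) v) (h2 : 2 ≤ dg B (y 0) (cs c z)) :
    2 * dg B (y 0) (cs c z) + 2 * p ≤ c + 2 := by
  have hc3 := h.three
  obtain ⟨v, hv, hyv⟩ := hne
  obtain ⟨s, hs, rfl⟩ := Per.exists_idx h hv
  have hz := h.shift s
  have hcs := h.cs_shift s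
  rw [← hcs] at h2 ⊢
  rw [hz.dg_cs] at h2 ⊢
  set z' : ℕ → V := fun j => z (s + j) with hz'
  have hout : ∀ i < p, ∀ j, y i ≠ z' j := fun i hi j hj => yout i hi (hj ▸ h.mem_cs _)
  have hz0 : B.Adj (z' 0) (y (p - 1)) := by
    simpa [hz'] using hyv.symm
  set I := (range c).filter (fun j => B.Adj (y 0) (z' j)) with hI
  have key : ∀ i ∈ I, i ≠ 0 → p + 1 ≤ i ∧ p + 1 ≤ c - i := by
    intro i hi hi0
    rw [hI, mem_filter, mem_range] at hi
    constructor
    · refine gap hz hno hp (y := fun k => y (p - 1 - k)) (fun a ha b hb hab => ?_)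
        (fun a ha => ?_) (fun a ha j => hout _ (by omega) j) (s := 0) (g := i) (by omega) hi.1 ?_ ?_
      · have := yinj _ (by omega) _ (by omega) hab
        omega
      · have := yadj (p - 1 - (a + 1)) (by omega)
        rw [show p - 1 - (a + 1) + 1 = p - 1 - a by omega] at this
        exact this.symm
      · simpa using hz0
      · simpa using hi.2.symm
    · refine gap hz hno hp yinj yadj hout (s := i) (g := c - i) (by omega) (by omega) hi.2.symm ?_
      rw [show i + (c - i) = 0 + c by omega, hz.per]
      exact hz0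
  have hcons : ∀ i ∈ I, i + 1 < c → i + 1 ∉ I := by
    intro i hi hic hi1
    rw [hI, mem_filter, mem_range] at hi hi1
    have := gap hz hno (q := 1) le_rfl (y := fun _ => y 0) (fun i hi j hj _ => by omega)
      (fun i hi => by omega) (fun i _ j => hout 0 (by omega) j) (s := i) (g := 1) le_rfl (by omega)
      hi.2.symm hi1.2.symm
    omega
  set J := I.erase 0 with hJ
  have hJk : ∀ i ∈ J, p + 1 ≤ i ∧ i + p + 1 ≤ c := by
    intro i hi
    rw [hJ, mem_erase] at hi
    have := key i hi.2 hi.1
    omega
  have hJne : J.Nonempty := by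
    rw [← card_pos]
    have := Finset.pred_card_le_card_erase (s := I) (a := 0)
    rw [← hJ] at this
    omega
  obtain ⟨i0, hi0⟩ := hJne
  have h5 := hJk i0 hi0
  have hdis : Disjoint J (J.image (· + 1)) := by
    rw [Finset.disjoint_left]
    intro i hi hi1
    simp only [mem_image] at hi1
    obtain ⟨j, hj, rfl⟩ := hi1
    have h6 := hJk _ hi
    rw [hJ, mem_erase] at hi hj
    exact hcons j hj.2 (by omega) hi.2
  have hsub : J ∪ J.image (· + 1) ⊆ Icc (p + 1) (c - p) := by
    intro i hi
    simp only [mem_union, mem_image, mem_Icc] at hi ⊢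
    rcases hi with hi | ⟨j, hj, rfl⟩
    · have := hJk i hi; omega
    · have := hJk j hj; omega
  have h7 := card_le_card hsub
  rw [card_union_of_disjoint hdis, card_image_of_injective _ (fun a b hab => by simpa using hab),
    Nat.card_Icc] at h7
  have h8 := Finset.pred_card_le_card_erase (s := I) (a := 0)
  rw [← hJ] at h8
  omega

/-- a path through many vertices any two of which have many common neighbours -/
theorem path_build (Zs U : Finset V) (hU : U ⊆ Zs) {u1 : V} (hu1 : u1 ∈ U)
    (hcom : ∀ u ∈ U, ∀ u' ∈ U, u ≠ u' →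
      2 * U.card ≤ (Zs.filter (fun v => B.Adj u v) ∩ Zs.filter (fun v => B.Adj u' v)).card + 3) :
    ∀ k, k < U.card → ∃ y : ℕ → V, y 0 = u1 ∧ y (2 * k) ∈ U ∧
      (∀ i < 2 * k + 1, y i ∈ Zs) ∧ (∀ i < 2 * k + 1, ∀ j < 2 * k + 1, y i = y j → i = j) ∧
      (∀ i, i + 1 < 2 * k + 1 → B.Adj (y i) (y (i + 1))) ∧
      ((range (2 * k + 1)).image y ∩ U).card = k + 1 := by
  intro k
  induction k with
  | zero =>
    intro _
    refine ⟨fun _ => u1, rfl, hu1, fun _ _ => hU hu1, fun i hi j hj _ => by omega,
      fun i hi => by omega, ?_⟩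
    simp [hu1]
  | succ k ih =>
    intro hk
    obtain ⟨y, hy0, hyU, hyZ, hyinj, hyadj, hycard⟩ := ih (by omega)
    set I := (range (2 * k + 1)).image y with hI
    have hIc : I.card = 2 * k + 1 := by
      rw [hI, card_image_of_injOn, card_range]
      intro a ha b hb hab
      exact hyinj a (by simpa using ha) b (by simpa using hb) hab
    obtain ⟨u', hu'U, hu'I⟩ : ∃ u' ∈ U, u' ∉ I := by
      by_contra hcon
      push Not at hcon
      have h1 : I ∩ U = U := by
        rw [inter_eq_right]
        exact hcon
      rw [h1] at hycard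
      omega
    set w := y (2 * k) with hw
    have hwI : w ∈ I := mem_image_of_mem _ (mem_range.2 (by omega))
    have hwu : w ≠ u' := fun h => hu'I (h ▸ hwI)
    have hc := hcom w hyU u' hu'U hwu
    set K := Zs.filter (fun v => B.Adj w v) ∩ Zs.filter (fun v => B.Adj u' v) with hK
    have hIU : (I ∪ U).card + (k + 1) = (2 * k + 1) + U.card := by
      rw [← hycard, card_union_add_card_inter, hIc]
    obtain ⟨v, hvK, hvI⟩ : ∃ v ∈ K, v ∉ I ∪ U := by
      by_contra hcon
      push Not at hcon
      have h1 : K ⊆ ((I ∪ U).erase w).erase u' := by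
        intro v hv
        have hv' := hv
        rw [hK, mem_inter, mem_filter, mem_filter] at hv
        rw [mem_erase, mem_erase]
        refine ⟨?_, ?_, hcon v hv'⟩
        · rintro rfl
          exact B.loopless.irrefl _ hv.2.2
        · rintro rfl
          exact B.loopless.irrefl _ hv.1.2
      have h2 := card_le_card h1
      rw [card_erase_of_mem, card_erase_of_mem] at h2
      · have : 2 ≤ (I ∪ U).card := by
          rw [show 2 = ({w, u'} : Finset V).card by rw [card_pair hwu]]
          apply card_le_card
          intro a ha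
          simp only [mem_insert, mem_singleton] at ha
          rcases ha with rfl | rfl
          · exact mem_union_left _ hwI
          · exact mem_union_right _ hu'U
        omega
      · exact mem_union_left _ hwI
      · rw [mem_erase]
        exact ⟨hwu.symm, mem_union_right _ hu'U⟩
    rw [hK, mem_inter, mem_filter, mem_filter] at hvK
    rw [mem_union, not_or] at hvI
    have hyI : ∀ i < 2 * k + 1, y i ∈ I := fun i hi => mem_image_of_mem _ (mem_range.2 hi)
    have hvu : v ≠ u' := fun h => hvI.2 (h ▸ hu'U)
    refine ⟨fun i => if i < 2 * k + 1 then y i else if i = 2 * k + 1 then v else u', ?_, ?_, ?_, ?_,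
      ?_, ?_⟩
    · simp [hy0]
    · show (if 2 * (k + 1) < 2 * k + 1 then y (2 * (k + 1)) else if 2 * (k + 1) = 2 * k + 1 then v
        else u') ∈ U
      rw [if_neg (by omega), if_neg (by omega)]
      exact hu'U
    · intro i hi
      try simp only
      split_ifs with a1 a2
      · exact hyZ i a1
      · exact hvK.1.1
      · exact hU hu'U
    · intro i hi j hj hij
      try simp only at hij
      split_ifs at hij with a1 a2 a3 a4 a5 a6 a7 a8
      all_goals first
        | omega
        | exact hyinj _ (by omega) _ (by omega) hij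
        | (exact (hvI.1 (by rw [← hij]; exact hyI _ (by omega))).elim)
        | (exact (hvI.1 (by rw [hij]; exact hyI _ (by omega))).elim)
        | (exact (hu'I (by rw [← hij]; exact hyI _ (by omega))).elim)
        | (exact (hu'I (by rw [hij]; exact hyI _ (by omega))).elim)
        | exact absurd hij hvu
        | exact absurd hij.symm hvu
    · intro i hi
      try simp only
      by_cases a1 : i + 1 < 2 * k + 1
      · rw [if_pos (show i < 2 * k + 1 by omega), if_pos a1]
        exact hyadj i a1
      · by_cases a2 : i = 2 * k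
        · rw [if_pos (show i < 2 * k + 1 by omega), if_neg a1, if_pos (by omega), a2]
          exact hvK.1.2
        · rw [if_neg (show ¬ i < 2 * k + 1 by omega), if_pos (by omega), if_neg a1,
            if_neg (by omega)]
          exact hvK.2.2.symm
    · have h1 : (range (2 * (k + 1) + 1)).image
          (fun i => if i < 2 * k + 1 then y i else if i = 2 * k + 1 then v else u')
          = insert u' (insert v I) := by
        ext a
        simp only [mem_image, mem_range, mem_insert, hI]
        constructor
        · rintro ⟨i, hi, rfl⟩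
          split_ifs with a1 a2
          · exact Or.inr (Or.inr ⟨i, a1, rfl⟩)
          · exact Or.inr (Or.inl rfl)
          · exact Or.inl rfl
        · rintro (rfl | rfl | ⟨i, hi, rfl⟩)
          · exact ⟨2 * k + 2, by omega, by rw [if_neg (by omega), if_neg (by omega)]⟩
          · exact ⟨2 * k + 1, by omega, by rw [if_neg (by omega), if_pos rfl]⟩
          · exact ⟨i, by omega, by rw [if_pos hi]⟩
      rw [h1]
      have h2 : insert u' (insert v I) ∩ U = insert u' (I ∩ U) := by
        ext a
        simp only [mem_inter, mem_insert]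
        constructor
        · rintro ⟨rfl | rfl | h3, h4⟩
          · exact Or.inl rfl
          · exact absurd h4 hvI.2
          · exact Or.inr ⟨h3, h4⟩
        · rintro (rfl | ⟨h3, h4⟩)
          · exact ⟨Or.inl rfl, hu'U⟩
          · exact ⟨Or.inr (Or.inr h3), h4⟩
      rw [h2, card_insert_of_notMem (fun h => hu'I (mem_inter.1 h).1), hycard]

/-- few vertices of large degree outside a longest cycle -/
theorem bad_le [Fintype V] {c : ℕ} {z : ℕ → V} (h : Per B c z)
    (hno : ∀ l, c < l → ¬ HasC B Set.univ l) (Zs : Finset V) (hZs : ∀ u, u ∈ Zs ↔ u ∉ cs c z)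
    (n : ℕ) (hn : c + Zs.card + 1 = 2 * n) (hcn : n + 1 ≤ c) :
    4 * (Zs.filter (fun u => n ≤ dg B u (cs c z) + dg B u Zs)).card ≤ Zs.card + 1 := by
  set Bad := Zs.filter (fun u => n ≤ dg B u (cs c z) + dg B u Zs) with hBad
  have hbad : ∀ u ∈ Bad, u ∈ Zs ∧ n ≤ dg B u (cs c z) + dg B u Zs := fun u hu => by
    rw [hBad, mem_filter] at hu; exact hu
  have hlt : ∀ u ∈ Bad, dg B u Zs + 1 ≤ Zs.card := by
    intro u hu
    have h1 : Zs.filter (fun v => B.Adj u v) ⊆ Zs.erase u := by
      intro v hv
      rw [mem_filter] at hv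
      rw [mem_erase]
      exact ⟨fun h => B.loopless.irrefl u (h ▸ hv.2), hv.1⟩
    have h2 := card_le_card h1
    rw [card_erase_of_mem (hbad u hu).1] at h2
    have h3 : 0 < Zs.card := card_pos.2 ⟨u, (hbad u hu).1⟩
    rw [dg]
    omega
  have hhalf : ∀ u ∈ Bad, 2 * dg B u (cs c z) ≤ c := fun u hu =>
    attach_one h hno ((hZs u).1 (hbad u hu).1)
  have P : ∀ j, j + 1 ≤ Bad.card → ∀ u ∈ Bad, Zs.card + 4 * (j + 1) ≤ 2 * dg B u Zs + 3 := by
    intro j
    induction j with
    | zero =>
      intro _ u hu
      have h1 := (hbad u hu).2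
      have h2 := hhalf u hu
      omega
    | succ j ih =>
      intro hj u hu
      have ihj := ih (by omega)
      obtain ⟨U, hU1, hU2, hU3⟩ := Finset.exists_subsuperset_card_eq (s := {u}) (t := Bad)
        (n := j + 2) (by simpa using hu) (by simp) (by omega)
      have hUZ : U ⊆ Zs := fun v hv => (hbad v (hU2 hv)).1
      have huU : u ∈ U := hU1 (mem_singleton_self u)
      obtain ⟨y, hy0, hyU, hyZ, hyinj, hyadj, -⟩ := path_build (B := B) Zs U hUZ huU (by
        intro a ha b hb hab
        have h1 := ihj a (hU2 ha)
        have h2 := ihj b (hU2 hb)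
        have h3 := card_union_add_card_inter (Zs.filter (fun v => B.Adj a v))
          (Zs.filter (fun v => B.Adj b v))
        have h4 : (Zs.filter (fun v => B.Adj a v) ∪ Zs.filter (fun v => B.Adj b v)).card ≤ Zs.card :=
          card_le_card (union_subset (filter_subset _ _) (filter_subset _ _))
        simp only [dg] at h1 h2
        omega) (j + 1) (by omega)
      have hbu := hbad u hu
      have hlu := hlt u hu
      have hlast := hyU
      have hlb := hbad _ (hU2 hlast)
      have hll := hlt _ (hU2 hlast)
      have h5 := four h hno (p := 2 * (j + 1) + 1) (by omega) hyinj hyadj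
        (fun i hi => (hZs _).1 (hyZ i hi)) (by
          have h6 : 0 < dg B (y (2 * (j + 1))) (cs c z) := by omega
          rw [dg, card_pos] at h6
          obtain ⟨v, hv⟩ := h6
          rw [mem_filter] at hv
          exact ⟨v, hv.1, by simpa using hv.2⟩) (by rw [hy0]; omega)
      rw [hy0] at h5
      omega
  rcases Nat.eq_zero_or_pos Bad.card with h0 | h0
  · omega
  · obtain ⟨u, hu⟩ := card_pos.1 h0
    have h1 := P (Bad.card - 1) (by omega) u hu
    have h2 := hlt u hu
    omega

end K3h13.TC
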