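import Pool.Agent.R698.TC.Main

/-!
# Vertices outside a longest cycle

Let `C` be a longest cycle of a graph `B` and let `σ` be the successor on `C`.  For a vertex `u`
outside of `C` write `A u` for its set of neighbours on `C`.

* `A u` contains no two consecutive vertices (also for two vertices joined by a path outside `C`),
* for `u ≠ u'` there is at most one `v` with `v ∈ A u` and `σ v ∈ A u'`,
* the successors of `A u` are pairwise non-adjacent.
-/

set_option autoImplicit false
set_option linter.unusedSectionVars false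

namespace K3h13.TC

open Finset R698.TC
open scoped Classical

variable {V : Type*} {B : SimpleGraph V}

/-- surgery with two parallel attachments -/
theorem two0 {c : ℕ} {z : ℕ → V} (h : Per B c z) (hno : ∀ l, c < l → ¬ HasC B Set.univ l)
    {u u' : V} (huu : u ≠ u') (hu : ∀ j, u ≠ z j) (hu' : ∀ j, u' ≠ z j)
    {k : ℕ} (hk : k + 1 < c)
    (h1 : B.Adj u (z (c - 1))) (h2 : B.Adj u' (z 0)) (h3 : B.Adj u (z k))
    (h4 : B.Adj u' (z (k + 1))) : False := by
  have hc3 := h.three
  refine hno (c + 2) (by omega)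
    ⟨fun t => if t < c - 1 - k then z (k + 1 + t) else if t = c - 1 - k then u else
      if t ≤ c then z (c - t) else u', ⟨by omega, ?_, ?_, ?_⟩, fun _ _ => Set.mem_univ _⟩
  · intro i hi j hj hij
    try simp only at hij
    split_ifs at hij with a1 a2 a3 a4 a5 a6 a7 a8 a9
    all_goals first
      | omega
      | exact absurd hij (hu _)
      | exact absurd hij.symm (hu _)
      | exact absurd hij (hu' _)
      | exact absurd hij.symm (hu' _)
      | exact absurd hij huu
      | exact absurd hij.symm huu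
      | (have := h.inj _ (by omega) _ (by omega) hij; omega)
  · intro i hi
    try simp only
    by_cases a1 : i + 1 < c - 1 - k
    · rw [if_pos (show i < c - 1 - k by omega), if_pos a1]
      have := h.adj (k + 1 + i)
      rwa [show k + 1 + i + 1 = k + 1 + (i + 1) by omega] at this
    · by_cases a2 : i + 1 = c - 1 - k
      · rw [if_pos (show i < c - 1 - k by omega), if_neg a1, if_pos a2,
          show k + 1 + i = c - 1 by omega]
        exact h1.symm
      · by_cases a3 : i = c - 1 - k
        · rw [if_neg (show ¬ i < c - 1 - k by omega), if_pos a3, if_neg a1, if_neg a2,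
            if_pos (show i + 1 ≤ c by omega), show c - (i + 1) = k by omega]
          exact h3
        · by_cases a4 : i + 1 ≤ c
          · rw [if_neg (show ¬ i < c - 1 - k by omega), if_neg a3, if_pos (show i ≤ c by omega),
              if_neg a1, if_neg a2, if_pos a4]
            have := h.adj (c - (i + 1))
            rw [show c - (i + 1) + 1 = c - i by omega] at this
            exact this.symm
          · rw [if_neg (show ¬ i < c - 1 - k by omega), if_neg a3, if_pos (show i ≤ c by omega),
              if_neg a1, if_neg a2, if_neg a4, show c - i = 0 by omega]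
            exact h2.symm
  · try simp only
    rw [if_neg (show ¬ (c + 2 - 1 < c - 1 - k) by omega),
      if_neg (show ¬ (c + 2 - 1 = c - 1 - k) by omega), if_neg (show ¬ (c + 2 - 1 ≤ c) by omega),
      if_pos (show 0 < c - 1 - k by omega)]
    exact h4

/-- surgery with an edge between two successors -/
theorem three0 {c : ℕ} {z : ℕ → V} (h : Per B c z) (hno : ∀ l, c < l → ¬ HasC B Set.univ l)
    {u : V} (hu : ∀ j, u ≠ z j) {k : ℕ} (hk : k + 1 < c)
    (h1 : B.Adj u (z (c - 1))) (h3 : B.Adj u (z k)) (h4 : B.Adj (z 0) (z (k + 1))) : False := by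
  have hc3 := h.three
  refine hno (c + 1) (by omega)
    ⟨fun t => if t ≤ k then z (k - t) else if t < c then z t else u, ⟨by omega, ?_, ?_, ?_⟩,
      fun _ _ => Set.mem_univ _⟩
  · intro i hi j hj hij
    try simp only at hij
    split_ifs at hij with a1 a2 a3 a4 a5 a6
    all_goals first
      | omega
      | exact absurd hij (hu _)
      | exact absurd hij.symm (hu _)
      | (have := h.inj _ (by omega) _ (by omega) hij; omega)
  · intro i hi
    try simp only
    by_cases a1 : i + 1 ≤ k
    · rw [if_pos (show i ≤ k by omega), if_pos a1]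
      have := h.adj (k - (i + 1))
      rw [show k - (i + 1) + 1 = k - i by omega] at this
      exact this.symm
    · by_cases a2 : i = k
      · rw [if_pos (show i ≤ k by omega), if_neg a1, if_pos (show i + 1 < c by omega), a2,
          Nat.sub_self]
        exact h4
      · by_cases a3 : i + 1 < c
        · rw [if_neg (show ¬ i ≤ k by omega), if_neg a1, if_pos a3, if_pos (show i < c by omega)]
          exact h.adj i
        · rw [if_neg (show ¬ i ≤ k by omega), if_neg a1, if_neg a3, if_pos (show i < c by omega),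
            show i = c - 1 by omega]
          exact h1.symm
  · try simp only
    rw [if_neg (show ¬ (c + 1 - 1 ≤ k) by omega), if_neg (show ¬ (c + 1 - 1 < c) by omega),
      if_pos (show 0 ≤ k by omega), Nat.sub_zero]
    exact h3

/-- what we use about the vertices outside a longest cycle with vertex set `C` and successor `σ` -/
structure LC (B : SimpleGraph V) (C : Finset V) (σ : V → V) : Prop where
  maps : ∀ v ∈ C, σ v ∈ C
  inj : ∀ v ∈ C, ∀ w ∈ C, σ v = σ w → v = w
  one : ∀ u, u ∉ C → ∀ v ∈ C, B.Adj u v → ¬ B.Adj u (σ v)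
  two : ∀ u, u ∉ C → ∀ u', u' ∉ C → u ≠ u' → ∀ v ∈ C, ∀ w ∈ C, B.Adj u v → B.Adj u' (σ v) →
    B.Adj u w → B.Adj u' (σ w) → v = w
  three : ∀ u, u ∉ C → ∀ v ∈ C, ∀ w ∈ C, v ≠ w → B.Adj u v → B.Adj u w → ¬ B.Adj (σ v) (σ w)

/-- the successor on a cycle -/
noncomputable def nx (c : ℕ) (z : ℕ → V) (v : V) : V :=
  if h : ∃ i, i < c ∧ z i = v then z (h.choose + 1) else v

theorem nx_z {c : ℕ} {z : ℕ → V} (h : Per B c z) (i : ℕ) : nx c z (z i) = z (i + 1) := by
  have hc3 := h.three
  have hex : ∃ j, j < c ∧ z j = z i := ⟨i % c, Nat.mod_lt _ (by omega), (h.modc i).symm⟩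
  rw [nx, dif_pos hex]
  obtain ⟨h1, h2⟩ := hex.choose_spec
  set j := hex.choose
  have h3 : j = i % c := h.inj _ h1 _ (Nat.mod_lt _ (by omega)) (by rw [h2, ← h.modc])
  rw [h.modc (j + 1), h.modc (i + 1), h3, Nat.mod_add_mod]

theorem Per.exists_idx {c : ℕ} {z : ℕ → V} (h : Per B c z) {v : V} (hv : v ∈ cs c z) :
    ∃ i, i < c ∧ z i = v := by
  simpa [cs] using hv

theorem two1 {c : ℕ} {z : ℕ → V} (h : Per B c z) (hno : ∀ l, c < l → ¬ HasC B Set.univ l)
    {u u' : V} (huu : u ≠ u') (hu : ∀ j, u ≠ z j) (hu' : ∀ j, u' ≠ z j)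
    {i j : ℕ} (hi : i < c) (hj : j < c)
    (h1 : B.Adj u (z i)) (h2 : B.Adj u' (z (i + 1))) (h3 : B.Adj u (z j))
    (h4 : B.Adj u' (z (j + 1))) : i = j := by
  by_contra hij
  have hc3 := h.three
  -- write j = i + 1 + k modulo c
  obtain ⟨k, hk, hkj⟩ : ∃ k, k + 1 < c ∧ (i + 1 + k) % c = j := by
    by_cases hlt : i < j
    · exact ⟨j - i - 1, by omega, by rw [show i + 1 + (j - i - 1) = j by omega, Nat.mod_eq_of_lt hj]⟩
    · refine ⟨j + c - i - 1, by omega, ?_⟩
      rw [show i + 1 + (j + c - i - 1) = j + c by omega, Nat.add_mod_right, Nat.mod_eq_of_lt hj]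
  have hs := h.shift (i + 1)
  refine two0 hs hno huu (fun t => hu _) (fun t => hu' _) hk ?_ ?_ ?_ ?_
  · show B.Adj u (z (i + 1 + (c - 1)))
    rw [show i + 1 + (c - 1) = i + c by omega, h.per]
    exact h1
  · exact h2
  · show B.Adj u (z (i + 1 + k))
    rw [h.modc, hkj]
    exact h3
  · show B.Adj u' (z (i + 1 + (k + 1)))
    have : z (i + 1 + (k + 1)) = z (j + 1) := by
      rw [h.modc, h.modc (j + 1), ← hkj, Nat.mod_add_mod]
      congr 2
    rw [this]
    exact h4

theorem three1 {c : ℕ} {z : ℕ → V} (h : Per B c z) (hno : ∀ l, c < l → ¬ HasC B Set.univ l)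
    {u : V} (hu : ∀ j, u ≠ z j) {i j : ℕ} (hi : i < c) (hj : j < c) (hij : i ≠ j)
    (h1 : B.Adj u (z i)) (h3 : B.Adj u (z j)) : ¬ B.Adj (z (i + 1)) (z (j + 1)) := by
  intro h4
  have hc3 := h.three
  obtain ⟨k, hk, hkj⟩ : ∃ k, k + 1 < c ∧ (i + 1 + k) % c = j := by
    by_cases hlt : i < j
    · exact ⟨j - i - 1, by omega, by rw [show i + 1 + (j - i - 1) = j by omega, Nat.mod_eq_of_lt hj]⟩
    · refine ⟨j + c - i - 1, by omega, ?_⟩
      rw [show i + 1 + (j + c - i - 1) = j + c by omega, Nat.add_mod_right, Nat.mod_eq_of_lt hj]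
  have hs := h.shift (i + 1)
  refine three0 hs hno (fun t => hu _) hk ?_ ?_ ?_
  · show B.Adj u (z (i + 1 + (c - 1)))
    rw [show i + 1 + (c - 1) = i + c by omega, h.per]
    exact h1
  · show B.Adj u (z (i + 1 + k))
    rw [h.modc, hkj]
    exact h3
  · show B.Adj (z (i + 1)) (z (i + 1 + (k + 1)))
    have : z (i + 1 + (k + 1)) = z (j + 1) := by
      rw [h.modc, h.modc (j + 1), ← hkj, Nat.mod_add_mod]
      congr 2
    rw [this]
    exact h4

theorem lc {c : ℕ} {z : ℕ → V} (h : Per B c z) (hno : ∀ l, c < l → ¬ HasC B Set.univ l) :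
    LC B (cs c z) (nx c z) := by
  have hc3 := h.three
  have hout : ∀ u, u ∉ cs c z → ∀ j, u ≠ z j := fun u hu j hj => hu (hj ▸ h.mem_cs j)
  refine ⟨?_, ?_, ?_, ?_, ?_⟩
  · intro v hv
    obtain ⟨i, hi, rfl⟩ := Per.exists_idx h hv
    rw [nx_z h]
    exact h.mem_cs _
  · intro v hv w hw hvw
    obtain ⟨i, hi, rfl⟩ := Per.exists_idx h hv
    obtain ⟨j, hj, rfl⟩ := Per.exists_idx h hw
    rw [nx_z h, nx_z h] at hvw
    have h1 := (h.shift 1).inj i hi j hj (by simpa [add_comm] using hvw)
    rw [h1]
  · intro u hu v hv h1 h2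
    obtain ⟨i, hi, rfl⟩ := Per.exists_idx h hv
    rw [nx_z h] at h2
    have := gap h hno (q := 1) le_rfl (y := fun _ => u) (fun i hi j hj _ => by omega)
      (fun i hi => by omega) (fun i _ j => hout u hu j) (s := i) (g := 1) le_rfl (by omega)
      h1.symm h2.symm
    omega
  · intro u hu u' hu' huu v hv w hw h1 h2 h3 h4
    obtain ⟨i, hi, rfl⟩ := Per.exists_idx h hv
    obtain ⟨j, hj, rfl⟩ := Per.exists_idx h hw
    rw [nx_z h] at h2 h4
    rw [two1 h hno huu (hout u hu) (hout u' hu') hi hj h1 h2 h3 h4]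
  · intro u hu v hv w hw hvw h1 h3
    obtain ⟨i, hi, rfl⟩ := Per.exists_idx h hv
    obtain ⟨j, hj, rfl⟩ := Per.exists_idx h hw
    rw [nx_z h, nx_z h]
    exact three1 h hno (hout u hu) hi hj (fun hij => hvw (by rw [hij])) h1 h3

end K3h13.TC
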