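import Mathlib

/-!
# Facts about trees
-/

set_option autoImplicit false
set_option linter.unusedSectionVars false

namespace K3h13.TC

open Finset
open scoped Classical

variable {W : Type*} [Fintype W] {T : SimpleGraph W} {X Y : Finset W}

/-- the neighbours of a vertex -/
noncomputable def nb (T : SimpleGraph W) (w : W) : Finset W := univ.filter (fun v => T.Adj w v)

theorem mem_nb {v w : W} : v ∈ nb T w ↔ T.Adj w v := by simp [nb]

/-- `X` and `Y` are the two colour classes of `T` -/
structure Bip (T : SimpleGraph W) (X Y : Finset W) : Prop where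
  disj : Disjoint X Y
  cover : ∀ w, w ∈ X ∨ w ∈ Y
  adj : ∀ v w, T.Adj v w → (v ∈ X ∧ w ∈ Y) ∨ (v ∈ Y ∧ w ∈ X)

theorem Bip.symm (h : Bip T X Y) : Bip T Y X :=
  ⟨h.disj.symm, fun w => (h.cover w).symm, fun v w hvw => (h.adj v w hvw).symm⟩

theorem Bip.notMem (h : Bip T X Y) {w : W} (hw : w ∈ Y) : w ∉ X := fun hx =>
  Finset.disjoint_left.1 h.disj hx hw

theorem Bip.notMem' (h : Bip T X Y) {w : W} (hw : w ∈ X) : w ∉ Y := fun hy =>
  Finset.disjoint_left.1 h.disj hw hy

theorem Bip.right (h : Bip T X Y) {v w : W} (hv : v ∈ X) (hvw : T.Adj v w) : w ∈ Y := by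
  rcases h.adj v w hvw with h1 | h1
  · exact h1.2
  · exact absurd h1.1 (h.notMem' hv)

theorem Bip.left (h : Bip T X Y) {v w : W} (hv : v ∈ Y) (hvw : T.Adj v w) : w ∈ X := by
  rcases h.adj v w hvw with h1 | h1
  · exact absurd h1.1 (h.notMem hv)
  · exact h1.2

theorem Bip.card (h : Bip T X Y) : X.card + Y.card = Fintype.card W := by
  rw [← card_union_of_disjoint h.disj, ← card_univ]
  congr 1
  ext w
  simpa using h.cover w

theorem exists_bip (hT : T.IsTree) : ∃ X Y : Finset W, Bip T X Y ∧ X.card ≤ Y.card := by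
  obtain ⟨C⟩ := hT.colorable_two
  have h : Bip T (univ.filter (fun w => C w = 0)) (univ.filter (fun w => C w = 1)) := by
    refine ⟨?_, ?_, ?_⟩
    · rw [Finset.disjoint_left]
      intro w hw hw'
      rw [mem_filter] at hw hw'
      rw [hw.2] at hw'
      simp at hw'
    · intro w
      simp only [mem_filter, mem_univ, true_and]
      have := (C w).isLt
      rcases Nat.lt_or_ge (C w).val 1 with h1 | h1
      · left; apply Fin.ext; simp; omega
      · right; apply Fin.ext; simp; omega
    · intro v w hvw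
      have h1 := C.valid hvw
      simp only [mem_filter, mem_univ, true_and]
      have h2 := (C v).isLt
      have h3 := (C w).isLt
      have h4 : (C v).val ≠ (C w).val := fun h => h1 (Fin.ext h)
      rcases Nat.lt_or_ge (C v).val 1 with h5 | h5
      · left; exact ⟨Fin.ext (by simp; omega), Fin.ext (by simp; omega)⟩
      · right; exact ⟨Fin.ext (by simp; omega), Fin.ext (by simp; omega)⟩
  rcases le_total (univ.filter (fun w => C w = 0)).card (univ.filter (fun w => C w = 1)).card with
    h1 | h1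
  · exact ⟨_, _, h, h1⟩
  · exact ⟨_, _, h.symm, h1⟩

theorem nb_card (w : W) : (nb T w).card = T.degree w := by
  rw [← SimpleGraph.card_neighborFinset_eq_degree]
  congr 1
  ext v
  simp [nb]

theorem Bip.sum_nb (h : Bip T X Y) (hT : T.IsTree) :
    ∑ y ∈ Y, (nb T y).card + 1 = X.card + Y.card := by
  have h1 : T.IsBipartiteWith (X : Set W) (Y : Set W) :=
    ⟨disjoint_coe.2 h.disj, fun v w hvw => h.adj v w hvw⟩
  have h2 := SimpleGraph.isBipartiteWith_sum_degrees_eq_card_edges' h1
  have h3 := hT.card_edgeFinset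
  rw [sum_congr rfl (fun y _ => nb_card y), h2, h.card, ← h3]

theorem nb_pos (hT : T.IsTree) (h2 : 2 ≤ Fintype.card W) (w : W) : 1 ≤ (nb T w).card := by
  rw [nb_card]
  have : Nontrivial W := Fintype.one_lt_card_iff_nontrivial.1 (by omega)
  exact hT.connected.preconnected.degree_pos_of_nontrivial w

/-- the total excess of the degrees in one class -/
theorem Bip.sum_pred (h : Bip T X Y) (hT : T.IsTree) (h2 : 2 ≤ Fintype.card W) :
    ∑ y ∈ Y, ((nb T y).card - 1) + 1 = X.card := by
  have h1 := h.sum_nb hT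
  have h3 : ∑ y ∈ Y, (nb T y).card = ∑ y ∈ Y, ((nb T y).card - 1) + Y.card := by
    rw [card_eq_sum_ones, ← sum_add_distrib]
    refine sum_congr rfl fun y _ => ?_
    have := nb_pos hT h2 y
    omega
  omega

theorem Bip.top (h : Bip T X Y) (hT : T.IsTree) (h2 : 2 ≤ Fintype.card W) {S : Finset W}
    (hS : S ⊆ Y) {d : ℕ} (hd : ∀ y ∈ S, d ≤ (nb T y).card) : S.card * (d - 1) + 1 ≤ X.card := by
  have h1 := h.sum_pred hT h2
  have h3 : S.card * (d - 1) ≤ ∑ y ∈ S, ((nb T y).card - 1) := by
    rw [← smul_eq_mul]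
    exact card_nsmul_le_sum _ _ _ (fun y hy => by have := hd y hy; omega)
  have h4 : ∑ y ∈ S, ((nb T y).card - 1) ≤ ∑ y ∈ Y, ((nb T y).card - 1) :=
    sum_le_sum_of_subset hS
  omega

theorem Bip.top' (h : Bip T X Y) (hT : T.IsTree) (h2 : 2 ≤ Fintype.card W) {y1 : W} (hy1 : y1 ∈ Y)
    {S : Finset W} (hS : S ⊆ Y.erase y1) {d : ℕ} (hd : ∀ y ∈ S, d ≤ (nb T y).card) :
    S.card * (d - 1) + (nb T y1).card ≤ X.card := by
  have h1 := h.sum_pred hT h2
  have h3 : S.card * (d - 1) ≤ ∑ y ∈ S, ((nb T y).card - 1) := by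
    rw [← smul_eq_mul]
    exact card_nsmul_le_sum _ _ _ (fun y hy => by have := hd y hy; omega)
  have h4 : ∑ y ∈ S, ((nb T y).card - 1) ≤ ∑ y ∈ Y.erase y1, ((nb T y).card - 1) :=
    sum_le_sum_of_subset hS
  have h5 := add_sum_erase Y (fun y => (nb T y).card - 1) hy1
  have h6 := nb_pos hT h2 y1
  omega

/-- two vertices have at most one common neighbour -/
theorem common (hT : T.IsTree) {y y' x x' : W} (hy : y ≠ y') (h1 : T.Adj y x) (h2 : T.Adj y' x)
    (h3 : T.Adj y x') (h4 : T.Adj y' x') : x = x' := by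
  have p1 : (SimpleGraph.Walk.cons h1 (SimpleGraph.Walk.cons h2.symm .nil)).IsPath := by
    rw [SimpleGraph.Walk.isPath_def]
    simp [h1.ne, h2.ne.symm, hy]
  have p2 : (SimpleGraph.Walk.cons h3 (SimpleGraph.Walk.cons h4.symm .nil)).IsPath := by
    rw [SimpleGraph.Walk.isPath_def]
    simp [h3.ne, h4.ne.symm, hy]
  have h5 := (hT.isAcyclic.subsingleton_path y y').elim ⟨_, p1⟩ ⟨_, p2⟩
  have h6 := congrArg (fun p : T.Path y y' => p.1.support) h5
  simpa using h6

/-- a neighbour of `r` whose branch has at most two vertices -/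
def Good (T : SimpleGraph W) (r x : W) : Prop :=
  (nb T x).card ≤ 2 ∧ ∀ y, T.Adj x y → y ≠ r → (nb T y).card = 1

/-- the number of small branches -/
theorem Bip.branches (h : Bip T X Y) (hT : T.IsTree) {r : W} (hr : r ∈ Y) :
    3 * (nb T r).card + 1 ≤ Fintype.card W + 2 * ((nb T r).filter (Good T r)).card := by
  choose p hp hpu using fun v => hT.existsUnique_path r v
  set f : W → W := fun v => (p v).snd with hf
  have hpf : ∀ v, ∀ q : T.Walk r v, q.IsPath → f v = q.snd := by
    intro v q hq
    rw [hf]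
    simp only
    rw [hpu v q hq]
  have hmaps : ∀ v ∈ univ.erase r, f v ∈ nb T r := by
    intro v hv
    rw [mem_erase] at hv
    rw [mem_nb]
    apply SimpleGraph.Walk.adj_snd
    intro hnil
    exact hv.1 hnil.eq.symm
  have hcard := card_eq_sum_card_fiberwise hmaps
  rw [card_erase_of_mem (mem_univ _), card_univ] at hcard
  have f1 : ∀ x, T.Adj r x → f x = x := by
    intro x hx
    rw [hpf x (SimpleGraph.Walk.cons hx .nil) (by
      rw [SimpleGraph.Walk.isPath_def]; simp [hx.ne])]
    simp
  have f2 : ∀ x l, T.Adj r x → T.Adj x l → l ≠ r → f l = x := by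
    intro x l hx hl hlr
    rw [hpf l (SimpleGraph.Walk.cons hx (SimpleGraph.Walk.cons hl .nil)) (by
      rw [SimpleGraph.Walk.isPath_def]; simp [hx.ne, hl.ne, hlr.symm])]
    simp
  have f3 : ∀ x l x', T.Adj r x → T.Adj x l → l ≠ r → T.Adj l x' → x' ≠ x → x' ≠ r → f x' = x := by
    intro x l x' hx hl hlr hx' hxx hxr
    rw [hpf x' (SimpleGraph.Walk.cons hx (SimpleGraph.Walk.cons hl (SimpleGraph.Walk.cons hx' .nil)))
      (by
        rw [SimpleGraph.Walk.isPath_def]
        simp [hx.ne, hl.ne, hlr.symm, hx'.ne, hxx.symm, hxr.symm])]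
    simp
  have hone : ∀ x ∈ nb T r, (if Good T r x then 1 else 3) ≤
      ((univ.erase r).filter (fun v => f v = x)).card := by
    intro x hx
    rw [mem_nb] at hx
    have hxF : x ∈ (univ.erase r).filter (fun v => f v = x) := by
      rw [mem_filter, mem_erase]
      exact ⟨⟨hx.ne.symm, mem_univ _⟩, f1 x hx⟩
    split_ifs with hg
    · exact card_pos.2 ⟨x, hxF⟩
    · have hthree : ∃ a b, a ≠ b ∧ a ≠ x ∧ b ≠ x ∧
          a ∈ (univ.erase r).filter (fun v => f v = x) ∧
          b ∈ (univ.erase r).filter (fun v => f v = x) := by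
        rw [Good, not_and_or] at hg
        rcases hg with hg | hg
        · have h1 : 1 < ((nb T x).erase r).card := by
            rw [card_erase_of_mem (mem_nb.2 hx.symm)]
            omega
          obtain ⟨a, ha, b, hb, hab⟩ := one_lt_card.1 h1
          rw [mem_erase, mem_nb] at ha hb
          refine ⟨a, b, hab, ha.2.ne.symm, hb.2.ne.symm, ?_, ?_⟩
          · rw [mem_filter, mem_erase]
            exact ⟨⟨ha.1, mem_univ _⟩, f2 x a hx ha.2 ha.1⟩
          · rw [mem_filter, mem_erase]
            exact ⟨⟨hb.1, mem_univ _⟩, f2 x b hx hb.2 hb.1⟩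
        · push Not at hg
          obtain ⟨l, hxl, hlr, hl1⟩ := hg
          have hxl' : x ∈ nb T l := mem_nb.2 hxl.symm
          have h2 : 0 < ((nb T l).erase x).card := by
            rw [card_erase_of_mem hxl']
            have := card_pos.2 ⟨x, hxl'⟩
            omega
          obtain ⟨x', hx'⟩ := card_pos.1 h2
          rw [mem_erase, mem_nb] at hx'
          have hxr : x' ≠ r := by
            rintro rfl
            have h3 := h.left hr hx
            have h4 := h.right h3 hxl
            exact h.notMem hr (h.left h4 hx'.2)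
          refine ⟨l, x', hx'.2.ne, hxl.ne.symm, hx'.1, ?_, ?_⟩
          · rw [mem_filter, mem_erase]
            exact ⟨⟨hlr, mem_univ _⟩, f2 x l hx hxl hlr⟩
          · rw [mem_filter, mem_erase]
            exact ⟨⟨hxr, mem_univ _⟩, f3 x l x' hx hxl hlr hx'.2 hx'.1 hxr⟩
      obtain ⟨a, b, hab, hax, hbx, ha, hb⟩ := hthree
      rw [show 3 = ({x, a, b} : Finset W).card by
        rw [card_insert_of_notMem (by simp [hax.symm, hbx.symm]), card_pair hab]]
      apply card_le_card
      intro v hv
      simp only [mem_insert, mem_singleton] at hv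
      rcases hv with rfl | rfl | rfl
      · exact hxF
      · exact ha
      · exact hb
  have hsum := sum_le_sum hone
  rw [← hcard] at hsum
  have h5 : ∑ x ∈ nb T r, (if Good T r x then 1 else 3) + 2 * ((nb T r).filter (Good T r)).card
      = 3 * (nb T r).card := by
    rw [card_filter, mul_sum, ← sum_add_distrib, card_eq_sum_ones, mul_sum]
    refine sum_congr rfl fun x _ => ?_
    split_ifs <;> rfl
  have h6 : 0 < Fintype.card W := Fintype.card_pos_iff.2 ⟨r⟩
  omega

end K3h13.TC
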