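import Pool.Agent.K3h13.TC.Attach
import Pool.Agent.K3h13.TC.Tree

/-!
# Embedding a tree into the complement
-/

set_option autoImplicit false
set_option linter.unusedSectionVars false

namespace K3h13.TC

open Finset R698.TC
open scoped Classical

variable {V W : Type*} [Fintype V] [Fintype W] {B : SimpleGraph V} {T : SimpleGraph W}
  {C : Finset V} {σ : V → V} {X Y : Finset W}

/-- `T` is contained in the complement of `B` -/
def Emb (T : SimpleGraph W) (B : SimpleGraph V) : Prop :=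
  ∃ φ : W → V, Function.Injective φ ∧ ∀ x y, T.Adj x y → ¬ B.Adj (φ x) (φ y)

/-- Hall's theorem for a finite set -/
theorem hall (v0 : V) (S0 : Finset W) (A : W → Finset V)
    (h : ∀ S ⊆ S0, S.card ≤ (S.biUnion A).card) :
    ∃ f : W → V, Set.InjOn f S0 ∧ ∀ y ∈ S0, f y ∈ A y := by
  have h1 := (Finset.all_card_le_biUnion_card_iff_exists_injective
    (fun i : {y // y ∈ S0} => A i.1)).1 (by
      intro s
      have h2 := h (s.map (Function.Embedding.subtype _)) (by
        intro y hy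
        simp only [mem_map, Function.Embedding.coe_subtype] at hy
        obtain ⟨a, _, rfl⟩ := hy
        exact a.2)
      rw [card_map] at h2
      refine h2.trans (card_le_card ?_)
      intro v hv
      simp only [mem_biUnion, mem_map, Function.Embedding.coe_subtype] at hv ⊢
      obtain ⟨y, ⟨a, ha, rfl⟩, hv⟩ := hv
      exact ⟨a, ha, hv⟩)
  obtain ⟨f, hf, hfA⟩ := h1
  refine ⟨fun y => if hy : y ∈ S0 then f ⟨y, hy⟩ else v0, ?_, ?_⟩
  · intro a ha b hb hab
    have ha' : a ∈ S0 := ha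
    have hb' : b ∈ S0 := hb
    simp only [dif_pos ha', dif_pos hb'] at hab
    have := hf hab
    simpa using this
  · intro y hy
    simp only [dif_pos hy]
    exact hfA ⟨y, hy⟩

/-- completing a partial embedding -/
theorem complete (v0 : V) (D : Finset W) (φ : W → V) (hinj : Set.InjOn φ D)
    (hok : ∀ x ∈ D, ∀ y ∈ D, T.Adj x y → ¬ B.Adj (φ x) (φ y))
    (hind : ∀ x y, x ∉ D → y ∉ D → ¬ T.Adj x y) (A : W → Finset V)
    (hA : ∀ y, y ∉ D → ∀ v ∈ A y, v ∉ D.image φ ∧ ∀ x, T.Adj y x → ¬ B.Adj v (φ x))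
    (hHall : ∀ S : Finset W, (∀ y ∈ S, y ∉ D) → S.Nonempty → ∃ y ∈ S, S.card ≤ (A y).card) :
    Emb T B := by
  obtain ⟨f, hf, hfA⟩ := hall v0 Dᶜ A (by
    intro S hS
    rcases S.eq_empty_or_nonempty with h0 | h0
    · rw [h0]; simp
    · obtain ⟨y, hy, hc⟩ := hHall S (fun y hy => by simpa using hS hy) h0
      exact hc.trans (card_le_card (subset_biUnion_of_mem A hy)))
  have hfD : ∀ y, y ∉ D → f y ∈ A y := fun y hy => hfA y (by simpa using hy)
  refine ⟨fun w => if w ∈ D then φ w else f w, ?_, ?_⟩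
  · intro a b hab
    simp only at hab
    split_ifs at hab with h1 h2 h2
    · exact hinj h1 h2 hab
    · exact absurd (hab ▸ mem_image_of_mem φ h1) (hA b h2 _ (hfD b h2)).1
    · exact absurd (hab.symm ▸ mem_image_of_mem φ h2) (hA a h1 _ (hfD a h1)).1
    · exact hf (by simpa using h1) (by simpa using h2) hab
  · intro x y hxy
    simp only
    split_ifs with h1 h2 h2
    · exact hok x h1 y h2 hxy
    · intro h3
      exact (hA y h2 _ (hfD y h2)).2 x hxy.symm h3.symm
    · exact (hA x h1 _ (hfD x h1)).2 y hxy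
    · exact absurd hxy (hind x y h1 h2)

/-- distributing the class `X` over the hosts `H` when part of `Y` is already placed -/
theorem hostHall (hT : T.IsTree) (X Y0 : Finset W) (g : W → V) (H : Finset V)
    (hXH : X.card ≤ H.card)
    (hdisj : ∀ y ∈ Y0, ∀ y' ∈ Y0, ∀ u ∈ H, B.Adj (g y) u → B.Adj (g y') u → y = y')
    (hu0 : ∃ u0 ∈ H, ∀ y ∈ Y0, ¬ B.Adj (g y) u0)
    (heach : ∀ y ∈ Y0, (nb T y).card + (H.filter (fun u => B.Adj (g y) u)).card ≤ H.card) :
    ∃ f : W → V, Set.InjOn f X ∧ ∀ x ∈ X, f x ∈ H ∧ ∀ y ∈ Y0, T.Adj x y → ¬ B.Adj (g y) (f x) := by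
  obtain ⟨u0, hu0H, hu0⟩ := hu0
  set A : W → Finset V := fun x => H.filter (fun u => ∀ y ∈ Y0, T.Adj x y → ¬ B.Adj (g y) u)
    with hA
  obtain ⟨f, hf, hfA⟩ := hall u0 X A (by
    intro S hS
    rcases S.eq_empty_or_nonempty with h0 | h0
    · rw [h0]; simp
    obtain ⟨x0, hx0⟩ := h0
    have hsub : S.biUnion A ⊆ H := by
      rw [biUnion_subset]
      intro x _
      exact filter_subset _ _
    by_cases hF : H ⊆ S.biUnion A
    · exact (card_le_card hS).trans (hXH.trans (card_le_card hF))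
    · obtain ⟨u, huH, hu⟩ := Finset.not_subset.1 hF
      -- the vertex of `Y0` responsible for `u`
      have hbad : ∀ v ∈ H, v ∉ S.biUnion A → ∀ x ∈ S, ∃ y ∈ Y0, T.Adj x y ∧ B.Adj (g y) v := by
        intro v hv hvA x hx
        by_contra hcon
        push Not at hcon
        apply hvA
        rw [mem_biUnion]
        exact ⟨x, hx, mem_filter.2 ⟨hv, fun y hy hxy => hcon y hy hxy⟩⟩
      have hcase : S.card ≤ 1 ∨ ∃ x1 ∈ S, ∃ x2 ∈ S, x1 ≠ x2 := by
        rcases Nat.lt_or_ge 1 S.card with h1 | h1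
        · right
          obtain ⟨a, ha, b, hb, hab⟩ := one_lt_card.1 h1
          exact ⟨a, ha, b, hb, hab⟩
        · left; exact h1
      rcases hcase with h1 | ⟨x1, hx1, x2, hx2, hx12⟩
      · refine h1.trans (card_pos.2 ⟨u0, ?_⟩)
        rw [mem_biUnion]
        exact ⟨x0, hx0, mem_filter.2 ⟨hu0H, fun y hy _ => hu0 y hy⟩⟩
      · obtain ⟨y, hy, hx1y, hyu⟩ := hbad u huH hu x1 hx1
        have hall' : ∀ v ∈ H, v ∉ S.biUnion A → ∃ z ∈ Y0, B.Adj (g z) v ∧ ∀ x ∈ S, T.Adj x z := by
          intro v hv hvA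
          obtain ⟨z, hz, hxz, hzv⟩ := hbad v hv hvA x1 hx1
          refine ⟨z, hz, hzv, ?_⟩
          intro x hx
          obtain ⟨z', hz', hxz', hzv'⟩ := hbad v hv hvA x hx
          rw [hdisj z hz z' hz' v hv hzv hzv']
          exact hxz'
        obtain ⟨y', hy', hy'u, hSy'⟩ := hall' u huH hu
        have hyy : y = y' := hdisj y hy y' hy' u huH hyu hy'u
        have hSy : ∀ x ∈ S, T.Adj x y := fun x hx => hyy ▸ hSy' x hx
        have hFb : H \ S.biUnion A ⊆ H.filter (fun v => B.Adj (g y) v) := by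
          intro v hv
          rw [mem_sdiff] at hv
          rw [mem_filter]
          refine ⟨hv.1, ?_⟩
          obtain ⟨z, hz, hzv, hSz⟩ := hall' v hv.1 hv.2
          have hyz : y = z := by
            by_contra hne
            exact hx12 (common hT hne (hSy x1 hx1).symm (hSz x1 hx1).symm (hSy x2 hx2).symm
              (hSz x2 hx2).symm)
          rw [hyz]
          exact hzv
        have h3 := card_le_card hFb
        have h4 := heach y hy
        have h5 : S.card ≤ (nb T y).card := card_le_card fun x hx => mem_nb.2 (hSy x hx).symm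
        rw [card_sdiff_of_subset hsub] at h3
        omega)
  refine ⟨f, hf, fun x hx => ?_⟩
  have h1 := hfA x hx
  rw [hA] at h1
  simp only [mem_filter] at h1
  exact h1

/-- the last phase of the embedding: everything outside `D` lies in `Y` and has its neighbours at
hosts -/
theorem finish (hL : LC B C σ) (v0 : V) (H : Finset V) (hH : ∀ u ∈ H, u ∉ C) (hT : T.IsTree)
    (h2 : 2 ≤ Fintype.card W) (hbip : Bip T X Y)
    (D : Finset W) (hXD : X ⊆ D) (φ : W → V) (hinj : Set.InjOn φ D)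
    (hok : ∀ x ∈ D, ∀ y ∈ D, T.Adj x y → ¬ B.Adj (φ x) (φ y))
    (k : ℕ) (hk : ((D.image φ) ∩ C).card ≤ k)
    (hhost : ∀ y, y ∉ D → ∀ x, T.Adj y x → φ x ∈ H) (M : ℕ) (hM : ∀ u ∈ H, (At B C u).card ≤ M)
    (hnon : ∀ S ⊆ Y, (∀ y ∈ S, y ∉ D) → S.Nonempty → ∀ d, 2 ≤ d → (∀ y ∈ S, d ≤ (nb T y).card) →
      ∀ α, α ≤ d * M → 2 * α ≤ C.card + d * (d - 1) → α + k + S.card ≤ C.card)
    (hleaf : ∀ u ∈ H, (Dᶜ).card ≤ (univ.filter (fun v => v ∉ D.image φ ∧ ¬ B.Adj v u)).card) :
    Emb T B := by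
  have hDY : ∀ y, y ∉ D → y ∈ Y := fun y hy => by
    rcases hbip.cover y with h | h
    · exact absurd (hXD h) hy
    · exact h
  refine complete v0 D φ hinj hok ?_
    (fun y => univ.filter (fun v => v ∉ D.image φ ∧ ∀ x, T.Adj y x → ¬ B.Adj v (φ x))) ?_ ?_
  · intro x y hx hy hxy
    exact hy (hXD (hbip.left (hDY x hx) hxy))
  · intro y _ v hv
    rw [mem_filter] at hv
    exact hv.2
  · intro S hSD hS
    obtain ⟨y, hy, hmin⟩ := exists_min_image S (fun y => (nb T y).card) hS
    refine ⟨y, hy, ?_⟩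
    have hpos := nb_pos hT h2 y
    rcases Nat.lt_or_ge 1 (nb T y).card with hd | hd
    · -- at least two neighbours
      set J := (nb T y).image φ with hJ
      have hJH : ∀ u ∈ J, u ∈ H := by
        intro u hu
        obtain ⟨x, hx, rfl⟩ := mem_image.1 hu
        exact hhost y (hSD y hy) x (mem_nb.1 hx)
      have hJc : J.card ≤ (nb T y).card := card_image_le
      have hα1 : (J.biUnion (At B C)).card ≤ (nb T y).card * M :=
        (bu_le J (fun u hu => hM u (hJH u hu))).trans (Nat.mul_le_mul_right _ hJc)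
      have hα2 : 2 * (J.biUnion (At B C)).card ≤ C.card + (nb T y).card * ((nb T y).card - 1) := by
        refine (hL.fact4 J (fun u hu => hH u (hJH u hu))).trans ?_
        exact Nat.add_le_add_left (Nat.mul_le_mul hJc (Nat.sub_le_sub_right hJc 1)) _
      have h3 := hnon S (fun z hz => hDY z (hSD z hz)) hSD hS _ hd (fun z hz => hmin z hz) _ hα1 hα2
      have h4 : C \ ((D.image φ ∩ C) ∪ J.biUnion (At B C)) ⊆
          univ.filter (fun v => v ∉ D.image φ ∧ ∀ x, T.Adj y x → ¬ B.Adj v (φ x)) := by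
        intro v hv
        rw [mem_sdiff, mem_union, not_or, mem_inter, not_and] at hv
        rw [mem_filter]
        refine ⟨mem_univ _, fun h => hv.2.1 h hv.1, ?_⟩
        intro x hx hvx
        apply hv.2.2
        rw [mem_biUnion]
        exact ⟨φ x, mem_image_of_mem _ (mem_nb.2 hx), mem_At.2 ⟨hv.1, hvx.symm⟩⟩
      have h5 := card_le_card h4
      have h6 := le_card_sdiff ((D.image φ ∩ C) ∪ J.biUnion (At B C)) C
      have h7 := card_union_le (D.image φ ∩ C) (J.biUnion (At B C))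
      omega
    · -- a leaf
      have h1 : (nb T y).card = 1 := by omega
      obtain ⟨x, hx⟩ := card_eq_one.1 h1
      have hyx : T.Adj y x := mem_nb.1 (hx ▸ mem_singleton_self x)
      have h3 := hleaf (φ x) (hhost y (hSD y hy) x hyx)
      have h4 : S.card ≤ (Dᶜ).card := card_le_card fun z hz => by simpa using hSD z hz
      refine h4.trans (h3.trans (card_le_card ?_))
      intro v hv
      rw [mem_filter] at hv ⊢
      refine ⟨mem_univ _, hv.2.1, ?_⟩
      intro x' hx'
      have : x' ∈ nb T y := mem_nb.2 hx'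
      rw [hx, mem_singleton] at this
      rw [this]
      exact hv.2.2

/-- leaves: the first kind of condition -/
theorem leaf1 (hL : LC B C σ) (D : Finset W) (φ : W → V) (k : ℕ)
    (hk : ((D.image φ) ∩ C).card ≤ k) (h : 2 * ((Dᶜ).card + k) ≤ C.card) {u : V} (hu : u ∉ C) :
    (Dᶜ).card ≤ (univ.filter (fun v => v ∉ D.image φ ∧ ¬ B.Adj v u)).card := by
  have h1 := hL.half hu
  have h4 : C \ ((D.image φ ∩ C) ∪ At B C u) ⊆
      univ.filter (fun v => v ∉ D.image φ ∧ ¬ B.Adj v u) := by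
    intro v hv
    rw [mem_sdiff, mem_union, not_or, mem_inter, not_and] at hv
    rw [mem_filter]
    exact ⟨mem_univ _, fun h => hv.2.1 h hv.1, fun h => hv.2.2 (mem_At.2 ⟨hv.1, h.symm⟩)⟩
  have h5 := card_le_card h4
  have h6 := le_card_sdiff ((D.image φ ∩ C) ∪ At B C u) C
  have h7 := card_union_le (D.image φ ∩ C) (At B C u)
  omega

/-- leaves: the second kind of condition -/
theorem leaf2 (D : Finset W) (φ : W → V) {n : ℕ} (hV : Fintype.card V + 1 = 2 * n)
    (hW : Fintype.card W = n) {u : V} (hu : dg B u univ + 1 ≤ n) :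
    (Dᶜ).card ≤ (univ.filter (fun v => v ∉ D.image φ ∧ ¬ B.Adj v u)).card := by
  have h4 : univ \ ((D.image φ) ∪ univ.filter (fun v => B.Adj u v)) ⊆
      univ.filter (fun v => v ∉ D.image φ ∧ ¬ B.Adj v u) := by
    intro v hv
    rw [mem_sdiff, mem_union, not_or, mem_filter] at hv
    rw [mem_filter]
    exact ⟨mem_univ _, hv.2.1, fun h => hv.2.2 ⟨mem_univ _, h.symm⟩⟩
  have h5 := card_le_card h4
  have h6 := le_card_sdiff ((D.image φ) ∪ univ.filter (fun v => B.Adj u v)) univ
  have h7 := card_union_le (D.image φ) (univ.filter (fun v => B.Adj u v))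
  have h8 : (D.image φ).card ≤ D.card := card_image_le
  rw [card_univ] at h6
  rw [dg] at hu
  have h9 := card_compl_add_card D
  rw [hW] at h9
  omega

/-- the embedding when only `X` and a subset of `Y` sent into the cycle are placed first -/
theorem hosted (hL : LC B C σ) (H : Finset V) (hH : ∀ u ∈ H, u ∉ C) (hT : T.IsTree)
    (h2 : 2 ≤ Fintype.card W) (hbip : Bip T X Y) (hXH : X.card ≤ H.card)
    (M : ℕ) (hM : ∀ u ∈ H, (At B C u).card ≤ M)
    (Y0 : Finset W) (hY0 : Y0 ⊆ Y) (g : W → V) (hg : Set.InjOn g Y0) (hgC : ∀ y ∈ Y0, g y ∈ C)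
    (hdisj : ∀ y ∈ Y0, ∀ y' ∈ Y0, ∀ u ∈ H, B.Adj (g y) u → B.Adj (g y') u → y = y')
    (hu0 : ∃ u0 ∈ H, ∀ y ∈ Y0, ¬ B.Adj (g y) u0)
    (heach : ∀ y ∈ Y0, (nb T y).card + (H.filter (fun u => B.Adj (g y) u)).card ≤ H.card)
    (hnon : ∀ S ⊆ Y, (∀ y ∈ S, y ∉ Y0) → S.Nonempty → ∀ d, 2 ≤ d → (∀ y ∈ S, d ≤ (nb T y).card) →
      ∀ α, α ≤ d * M → 2 * α ≤ C.card + d * (d - 1) → α + Y0.card + S.card ≤ C.card)
    (hleaf : ∀ (D : Finset W) (φ : W → V) (k : ℕ), ((D.image φ) ∩ C).card ≤ k →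
      (Dᶜ).card + k ≤ Y.card → ∀ u ∈ H,
      (Dᶜ).card ≤ (univ.filter (fun v => v ∉ D.image φ ∧ ¬ B.Adj v u)).card) :
    Emb T B := by
  obtain ⟨f, hf, hfH⟩ := hostHall hT X Y0 g H hXH hdisj hu0 heach
  obtain ⟨u0, hu0H, -⟩ := hu0
  set D := X ∪ Y0 with hD
  set φ : W → V := fun w => if w ∈ X then f w else g w with hφ
  have hφX : ∀ x ∈ X, φ x = f x := fun x hx => by simp [hφ, hx]
  have hφY : ∀ y ∈ Y0, φ y = g y := fun y hy => by
    simp [hφ, hbip.notMem (hY0 hy)]
  have hk : ((D.image φ) ∩ C).card ≤ Y0.card := by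
    have h3 : (D.image φ) ∩ C ⊆ Y0.image g := by
      intro v hv
      rw [mem_inter] at hv
      obtain ⟨w, hw, rfl⟩ := mem_image.1 hv.1
      rw [hD, mem_union] at hw
      rcases hw with hw | hw
      · rw [hφX w hw] at hv
        exact absurd hv.2 (hH _ (hfH w hw).1)
      · rw [hφY w hw]
        exact mem_image_of_mem _ hw
    exact (card_le_card h3).trans card_image_le
  have hDc : (Dᶜ).card + Y0.card ≤ Y.card := by
    have h3 : Dᶜ ⊆ Y \ Y0 := by
      intro y hy
      rw [mem_compl, hD, mem_union, not_or] at hy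
      rw [mem_sdiff]
      exact ⟨(hbip.cover y).resolve_left hy.1, hy.2⟩
    have h4 := card_le_card h3
    rw [card_sdiff_of_subset hY0] at h4
    have := card_le_card hY0
    omega
  refine finish hL u0 H hH hT h2 hbip D subset_union_left φ ?_ ?_ Y0.card hk ?_ M hM ?_
    (hleaf D φ Y0.card hk hDc)
  · intro a ha b hb hab
    rw [mem_coe, hD, mem_union] at ha hb
    rcases ha with ha | ha <;> rcases hb with hb | hb
    · rw [hφX a ha, hφX b hb] at hab
      exact hf ha hb hab
    · rw [hφX a ha, hφY b hb] at hab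
      exact absurd (hab ▸ hgC b hb) (hH _ (hfH a ha).1)
    · rw [hφY a ha, hφX b hb] at hab
      exact absurd (hab ▸ hgC a ha) (hH _ (hfH b hb).1)
    · rw [hφY a ha, hφY b hb] at hab
      exact hg ha hb hab
  · intro x hx y hy hxy
    rw [hD, mem_union] at hx hy
    rcases hbip.adj x y hxy with ⟨h3, h4⟩ | ⟨h3, h4⟩
    · have hy' : y ∈ Y0 := hy.resolve_left (hbip.notMem h4)
      rw [hφX x h3, hφY y hy']
      exact fun h => (hfH x h3).2 y hy' hxy h.symm
    · have hx' : x ∈ Y0 := hx.resolve_left (hbip.notMem h3)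
      rw [hφX y h4, hφY x hx']
      exact fun h => (hfH y h4).2 x hx' hxy.symm h
  · intro y hy x hyx
    rw [hD, mem_union, not_or] at hy
    have hyY := (hbip.cover y).resolve_left hy.1
    have hx := hbip.left hyY hyx
    rw [hφX x hx]
    exact (hfH x hx).1
  · intro S hS hSD hSn d hd hdS α h3 h4
    refine hnon S hS (fun y hy h => hSD y hy ?_) hSn d hd hdS α h3 h4
    rw [hD]
    exact mem_union_right _ h

end K3h13.TC
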