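import Pool.Agent.K3h13.TC.Twist
import Pool.Agent.K3h13.TC.Bad

/-!
# Trees in the complement of a graph without long cycles

Let `B` be a graph with `2 n - 1` vertices whose longest cycle has length `c` with
`n + 1 ≤ c ≤ (3 n - 1) / 2`.  Then the complement of `B` contains every tree with `n` vertices.
-/

set_option autoImplicit false
set_option linter.unusedSectionVars false

namespace K3h13.TC

open Finset R698.TC
open scoped Classical

variable {V W : Type*} [Fintype V] [Fintype W] {B : SimpleGraph V} {T : SimpleGraph W}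
  {C : Finset V} {σ : V → V} {X Y : Finset W}

theorem min_low (hL : LC B C σ) (H : Finset V) (hH : ∀ u ∈ H, u ∉ C) {u : V} (hu : u ∈ H)
    (hpos : 1 ≤ (At B C u).card) :
    ∃ w1 ∈ Qs B C σ u, (∀ w ∈ Qs B C σ u, (H.filter (fun v => B.Adj w1 v)).card ≤
      (H.filter (fun v => B.Adj w v)).card) ∧
      (At B C u).card * (H.filter (fun v => B.Adj w1 v)).card + 1 ≤ H.card := by
  have hne : (Qs B C σ u).Nonempty := by rw [← card_pos, hL.Qs_card]; omega
  obtain ⟨w1, hw1, hmin⟩ := exists_min_image (Qs B C σ u)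
    (fun w => (H.filter (fun v => B.Adj w v)).card) hne
  refine ⟨w1, hw1, hmin, ?_⟩
  have h1 := hL.sum_low H hH hu
  have h2 := card_nsmul_le_sum (Qs B C σ u) (fun w => (H.filter (fun v => B.Adj w v)).card) _ hmin
  rw [smul_eq_mul, hL.Qs_card] at h2
  omega

theorem alpha (hL : LC B C σ) (H : Finset V) (hH : ∀ u ∈ H, u ∉ C) (hT : T.IsTree)
    (h2 : 2 ≤ Fintype.card W) (hbip : Bip T X Y) (hXH : X.card ≤ H.card) (hXY : X.card ≤ Y.card)
    (hX : 1 ≤ X.card) (hc : X.card + Y.card + 1 ≤ C.card)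
    (hcz : C.card + H.card + 1 = 2 * (X.card + Y.card)) (hbc : 2 * Y.card ≤ C.card)
    (hnz : X.card + Y.card ≤ 2 * H.card + 1) : Emb T B := by
  have hleaf : LeafOK B C H Y := fun D φ k hk hkY u hu => leaf1 hL D φ k hk (by omega) (hH u hu)
  have hHne : H.Nonempty := by rw [← card_pos]; omega
  obtain ⟨us, hus, hM⟩ := exists_max_image H (fun u => (At B C u).card) hHne
  rcases Nat.lt_or_ge 1 (At B C us).card with hM2 | hM1
  swap
  · exact lowproc hL H hH hT h2 hbip hXH hXY hc hX (fun u hu => (hM u hu).trans hM1) hleaf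
  have hYne : Y.Nonempty := by rw [← card_pos]; omega
  obtain ⟨y1, hy1, hy1max⟩ := exists_max_image Y (fun y => (nb T y).card) hYne
  have hd1 : (nb T y1).card ≤ X.card := card_le_card fun x hx => hbip.left hy1 (mem_nb.1 hx)
  obtain ⟨w1, hw1, -, hMν⟩ := min_low hL H hH hus (by omega)
  by_cases hcond : (nb T y1).card + (H.filter (fun u => B.Adj w1 u)).card ≤ H.card
  · exact topproc hL H hH hT h2 hbip hXH hXY hc hus hM2 hM hy1 hy1max hw1 hcond hleaf
  push Not at hcond
  have harith : ∀ k, k + 1 ≤ 2 * Y.card → ∀ S ⊆ Y, y1 ∉ S → S.Nonempty → ∀ d, 2 ≤ d →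
      (∀ y ∈ S, d ≤ (nb T y).card) → ∀ α, α ≤ d * (At B C us).card → α + k + S.card ≤ C.card := by
    intro k hk S hS hSn hSne d hd hdS α h3
    have h4 : S ⊆ Y.erase y1 := by
      intro y hy
      rw [mem_erase]
      exact ⟨fun h => hSn (h ▸ hy), hS hy⟩
    have h5 := hbip.top' hT h2 hy1 h4 hdS
    obtain ⟨s, rfl⟩ : ∃ s, d = s + 1 := ⟨d - 1, by omega⟩
    exact ex_arith X.card Y.card C.card H.card _ _ (nb T y1).card S.card s α k hcz hXH hM2 hMν
      hd1 hcond (card_pos.2 hSne) (by omega) h5 h3 hk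
  by_cases hw0 : ∃ w0 ∈ C, (nb T y1).card + (H.filter (fun u => B.Adj w0 u)).card ≤ H.card
  · obtain ⟨w0, hw0, hcond0⟩ := hw0
    refine single hL H hH hT h2 hbip hXH _ hM hy1 hw0 hcond0 ?_ hleaf
    intro S hS hSn hSne d hd hdS α h3 _
    exact harith 1 (by omega) S hS hSn hSne d hd hdS α h3
  push Not at hw0
  have hHC : H.card < C.card := by omega
  obtain ⟨u', hu', v, hv, hlow⟩ := hL.exists_low H hHC (fun v hv => by
    have := hw0 v hv
    omega)
  have hvC := (mem_At.1 hv).1
  obtain ⟨w2, hw2, hmin2, hMν2⟩ := min_low hL H hH hu' (card_pos.2 ⟨v, hv⟩)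
  have h3 := hmin2 (σ v) (mem_image_of_mem _ hv)
  exact twisted hL H hH hT h2 hbip hXH hXY hcz hbc hnz _ _ hM hM2 hMν hy1 hcond hu' hw2 (by omega)
    hMν2 (hw0 w2 (hL.Qs_sub u' hw2))

theorem beta (hL : LC B C σ) (H : Finset V) (hH : ∀ u ∈ H, u ∉ C) (hT : T.IsTree)
    (h2 : 2 ≤ Fintype.card W) (hbip : Bip T X Y) (hXY : X.card ≤ Y.card)
    (hX : 1 ≤ X.card) (hc : X.card + Y.card + 1 ≤ C.card) {z : ℕ} (hz1 : 2 * X.card ≤ z)
    (hz2 : 3 * z ≤ 4 * H.card + 1) (hHC : H.card < C.card) (hleaf : LeafOK B C H Y) : Emb T B := by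
  have hXH : X.card + 1 ≤ H.card := by omega
  have hHne : H.Nonempty := by rw [← card_pos]; omega
  obtain ⟨us, hus, hM⟩ := exists_max_image H (fun u => (At B C u).card) hHne
  rcases Nat.lt_or_ge 1 (At B C us).card with hM2 | hM1
  swap
  · exact lowproc hL H hH hT h2 hbip (by omega) hXY hc hX (fun u hu => (hM u hu).trans hM1) hleaf
  have hYne : Y.Nonempty := by rw [← card_pos]; omega
  obtain ⟨y1, hy1, hy1max⟩ := exists_max_image Y (fun y => (nb T y).card) hYne
  have hd1 : (nb T y1).card ≤ X.card := card_le_card fun x hx => hbip.left hy1 (mem_nb.1 hx)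
  rcases Nat.lt_or_ge 2 (At B C us).card with hM3 | hM3
  · obtain ⟨w1, hw1, -, hMν⟩ := min_low hL H hH hus (by omega)
    refine topproc hL H hH hT h2 hbip (by omega) hXY hc hus hM2 hM hy1 hy1max hw1 ?_ hleaf
    have h3 : 3 * (H.filter (fun u => B.Adj w1 u)).card ≤
        (At B C us).card * (H.filter (fun u => B.Adj w1 u)).card := Nat.mul_le_mul_right _ hM3
    omega
  · -- a vertex of the cycle with at most one host attached
    obtain ⟨w0, hw0, hw0'⟩ : ∃ w0 ∈ C, (H.filter (fun u => B.Adj w0 u)).card ≤ 1 := by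
      by_contra hcon
      push Not at hcon
      have h3 : ∑ w ∈ C, dg B w H = ∑ u ∈ H, dg B u C := dg_comm C H
      have h4 : C.card * 2 ≤ ∑ w ∈ C, dg B w H := by
        rw [← smul_eq_mul]
        exact card_nsmul_le_sum _ _ _ (fun w hw => hcon w hw)
      have h5 : ∑ u ∈ H, dg B u C ≤ H.card * 2 := by
        rw [← smul_eq_mul]
        exact sum_le_card_nsmul _ _ _ (fun u hu => (hM u hu).trans hM3)
      omega
    refine single hL H hH hT h2 hbip (by omega) 2 (fun u hu => (hM u hu).trans hM3) hy1 hw0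
      (by omega) ?_ hleaf
    intro S hS hSn hSne d hd hdS α h3 h4
    obtain ⟨y, hy⟩ := hSne
    have h6 := hbip.top hT h2 (S := insert y1 S) (insert_subset hy1 hS) (d := d) (by
      intro v hv
      rw [mem_insert] at hv
      rcases hv with rfl | hv
      · exact (hdS y hy).trans (hy1max y (hS hy))
      · exact hdS v hv)
    rw [card_insert_of_notMem hSn] at h6
    have h7 : 1 ≤ S.card := card_pos.2 ⟨y, hy⟩
    have h8 := nl X.card Y.card C.card (S.card + 1) d 2 α h6 (by omega) hd h3 h4 hXY hc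
    omega

/-- **Main theorem.** -/
theorem embed {c : ℕ} {z : ℕ → V} (h : Per B c z) (hno : ∀ l, c < l → ¬ HasC B Set.univ l)
    (n : ℕ) (hV : Fintype.card V + 1 = 2 * n) (hcn : n + 1 ≤ c) (hc : 2 * c + 1 ≤ 3 * n)
    (hT : T.IsTree) (hW : Fintype.card W = n) : Emb T B := by
  have hL := lc h hno
  have hCc := h.card_cs
  obtain ⟨X, Y, hbip, hXY⟩ := exists_bip hT
  have hXYn := hbip.card
  have h2 : 2 ≤ Fintype.card W := by omega
  have hX : 1 ≤ X.card := by
    have := hbip.sum_pred hT h2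
    omega
  set C := cs c z with hC
  set Z : Finset V := univ \ C with hZ
  have hZm : ∀ u, u ∈ Z ↔ u ∉ C := fun u => by simp [hZ]
  have hZc : Z.card + c = 2 * n - 1 := by
    rw [hZ, card_sdiff_of_subset (subset_univ _), card_univ, hCc]
    have : C.card ≤ Fintype.card V := card_le_univ _
    omega
  by_cases hbc : 2 * Y.card ≤ c
  · exact alpha hL Z (fun u hu => (hZm u).1 hu) hT h2 hbip (by omega) hXY hX (by omega) (by omega)
      (by omega) (by omega)
  · have hbad := bad_le h hno Z hZm n (by omega) hcn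
    set Bad := Z.filter (fun u => n ≤ dg B u (cs c z) + dg B u Z) with hBad
    have hHc : (Z \ Bad).card + Bad.card = Z.card := card_sdiff_add_card_eq_card (filter_subset _ _)
    refine beta hL (Z \ Bad) (fun u hu => (hZm u).1 (mem_sdiff.1 hu).1) hT h2 hbip hXY hX (by omega)
      (z := Z.card) (by omega) (by omega) (by omega) ?_
    intro D φ k _ _ u hu
    refine leaf2 D φ hV hW ?_
    rw [mem_sdiff, hBad, mem_filter, not_and] at hu
    have h3 := hu.2 hu.1
    have h4 : dg B u univ = dg B u (cs c z) + dg B u Z := by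
      rw [← dg_union, ← hC, hZ, union_sdiff_of_subset (subset_univ _)]
      rw [← hC, hZ]
      exact disjoint_sdiff
    omega

end K3h13.TC
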