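import Pool.Agent.K3h13.TC.Embed

/-!
# The standard cases of the embedding
-/

set_option autoImplicit false
set_option linter.unusedSectionVars false

namespace K3h13.TC

open Finset R698.TC
open scoped Classical

theorem nl (a b c i d M α : ℕ) (hi : i * (d - 1) + 1 ≤ a) (hMi : M ≤ i) (hd : 2 ≤ d)
    (hα : α ≤ d * M) (hα2 : 2 * α ≤ c + d * (d - 1)) (hab : a ≤ b) (hc : a + b + 1 ≤ c) :
    α + i ≤ c := by
  obtain ⟨t, rfl⟩ : ∃ t, d = t + 2 := ⟨d - 2, by omega⟩
  have e1 : t + 2 - 1 = t + 1 := by omega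
  rw [e1] at hi hα2
  by_cases h : 2 * M + a ≤ c + 1
  · have h1 : t * M ≤ t * i := Nat.mul_le_mul_left t hMi
    nlinarith
  · have h2 : t = 0 := by
      by_contra h0
      have h3 : 1 ≤ t := by omega
      have h4 : i ≤ i * t := Nat.le_mul_of_pos_right i h3
      nlinarith
    subst h2
    omega

theorem ex_arith (a b c z M ν d1 i s α k : ℕ) (hc : c + z + 1 = 2 * (a + b)) (haz : a ≤ z)
    (hM : 2 ≤ M) (hMν : M * ν + 1 ≤ z) (hd1 : d1 ≤ a) (hz : z + 1 ≤ d1 + ν) (hi : 1 ≤ i)
    (hs : 1 ≤ s) (his : i * s + d1 ≤ a) (hα : α ≤ (s + 1) * M) (hk : k + 1 ≤ 2 * b) :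
    α + k + i ≤ c := by
  obtain ⟨δ, rfl⟩ : ∃ δ, z = a + δ := ⟨z - a, by omega⟩
  obtain ⟨e, rfl⟩ : ∃ e, a = d1 + e := ⟨a - d1, by omega⟩
  obtain ⟨j, rfl⟩ : ∃ j, i = j + 1 := ⟨i - 1, by omega⟩
  obtain ⟨r, rfl⟩ : ∃ r, s = r + 1 := ⟨s - 1, by omega⟩
  have h1 : j + r + 1 ≤ e := by nlinarith [Nat.zero_le (j * r)]
  have h2 : e + 1 + δ ≤ ν := by omega
  have h3 : M * (e + 1 + δ) ≤ M * ν := Nat.mul_le_mul_left M h2
  have h4 : (r + 2) * M + j ≤ (e + 1) * M := by
    have h5 : (r + 2 + j) * M ≤ (e + 1) * M := Nat.mul_le_mul_right M (by omega)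
    have h6 : j ≤ j * M := Nat.le_mul_of_pos_right j (by omega)
    nlinarith
  have h7 : 2 * δ ≤ M * δ := Nat.mul_le_mul_right δ hM
  have e1 : r + 1 + 1 = r + 2 := rfl
  rw [e1] at hα
  nlinarith

variable {V W : Type*} [Fintype V] [Fintype W] {B : SimpleGraph V} {T : SimpleGraph W}
  {C : Finset V} {σ : V → V} {X Y : Finset W}

/-- subsets of `Y` with the largest degrees -/
theorem top_subset (f : W → ℕ) (Y : Finset W) {y1 : W} (hy1 : y1 ∈ Y) (hmax : ∀ y ∈ Y, f y ≤ f y1) :
    ∀ N, N + 1 ≤ Y.card → ∃ Y0 ⊆ Y, y1 ∈ Y0 ∧ Y0.card = N + 1 ∧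
      ∀ y0 ∈ Y0, ∀ y ∈ Y, y ∉ Y0 → f y ≤ f y0 := by
  intro N
  induction N with
  | zero =>
    intro _
    exact ⟨{y1}, by simpa using hy1, mem_singleton_self _, by simp, fun y0 hy0 y hy _ => by
      rw [mem_singleton] at hy0
      rw [hy0]
      exact hmax y hy⟩
  | succ N ih =>
    intro hN
    obtain ⟨Y0, h1, h2, h3, h4⟩ := ih (by omega)
    have hne : (Y \ Y0).Nonempty := by
      rw [← card_pos, card_sdiff_of_subset h1]
      omega
    obtain ⟨m, hm, hmm⟩ := exists_max_image (Y \ Y0) f hne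
    rw [mem_sdiff] at hm
    refine ⟨insert m Y0, insert_subset hm.1 h1, mem_insert_of_mem h2, ?_, ?_⟩
    · rw [card_insert_of_notMem hm.2, h3]
    · intro y0 hy0 y hy hyn
      rw [mem_insert, not_or] at hyn
      rcases mem_insert.1 hy0 with rfl | h5
      · exact hmm y (mem_sdiff.2 ⟨hy, hyn.2⟩)
      · exact h4 y0 h5 y hy hyn.2

/-- the hosts attached to the successors of the attachments of a vertex -/
theorem LC.sum_low (h : LC B C σ) (H : Finset V) (hH : ∀ u ∈ H, u ∉ C) {u : V} (hu : u ∈ H) :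
    ∑ w ∈ Qs B C σ u, (H.filter (fun v => B.Adj w v)).card + 1 ≤ H.card := by
  have h1 : ((Qs B C σ u).biUnion (fun w => H.filter (fun v => B.Adj w v))).card
      = ∑ w ∈ Qs B C σ u, (H.filter (fun v => B.Adj w v)).card := by
    apply card_biUnion
    intro w hw w' hw' hww
    show Disjoint _ _
    rw [Finset.disjoint_left]
    intro v hv hv'
    rw [mem_filter] at hv hv'
    exact hww (h.Qs_one (hH u hu) (hH v hv.1) hw hw' hv.2.symm hv'.2.symm)
  have h2 : (Qs B C σ u).biUnion (fun w => H.filter (fun v => B.Adj w v)) ⊆ H.erase u := by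
    intro v hv
    rw [mem_biUnion] at hv
    obtain ⟨w, hw, hv⟩ := hv
    rw [mem_filter] at hv
    rw [mem_erase]
    refine ⟨?_, hv.1⟩
    rintro rfl
    exact h.Qs_not (hH v hv.1) hw hv.2.symm
  have h3 := card_le_card h2
  rw [card_erase_of_mem hu] at h3
  have h4 : 0 < H.card := card_pos.2 ⟨u, hu⟩
  omega

/-- condition on the leaves -/
def LeafOK (B : SimpleGraph V) (C : Finset V) (H : Finset V) (Y : Finset W) : Prop :=
  ∀ (D : Finset W) (φ : W → V) (k : ℕ), ((D.image φ) ∩ C).card ≤ k →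
      (Dᶜ).card + k ≤ Y.card → ∀ u ∈ H,
      (Dᶜ).card ≤ (univ.filter (fun v => v ∉ D.image φ ∧ ¬ B.Adj v u)).card

/-- few attachments -/
theorem lowproc (hL : LC B C σ) (H : Finset V) (hH : ∀ u ∈ H, u ∉ C) (hT : T.IsTree)
    (h2 : 2 ≤ Fintype.card W) (hbip : Bip T X Y) (hXH : X.card ≤ H.card) (hXY : X.card ≤ Y.card)
    (hc : X.card + Y.card + 1 ≤ C.card) (hX : 1 ≤ X.card)
    (hM : ∀ u ∈ H, (At B C u).card ≤ 1) (hleaf : LeafOK B C H Y) : Emb T B := by
  obtain ⟨u0, hu0⟩ : H.Nonempty := by rw [← card_pos]; omega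
  refine hosted hL H hH hT h2 hbip hXH 1 hM ∅ (empty_subset _) (fun _ => u0) (by simp) (by simp)
    (by simp) ⟨u0, hu0, by simp⟩ (by simp) ?_ hleaf
  intro S hS hSn hSne d hd hdS α h3 h4
  have h5 := hbip.top hT h2 hS hdS
  have h6 : 1 ≤ S.card := card_pos.2 hSne
  have := nl X.card Y.card C.card S.card d 1 α h5 h6 hd h3 h4 hXY hc
  simpa using this

/-- only the vertex `y1` is placed first -/
theorem single (hL : LC B C σ) (H : Finset V) (hH : ∀ u ∈ H, u ∉ C) (hT : T.IsTree)
    (h2 : 2 ≤ Fintype.card W) (hbip : Bip T X Y) (hXH : X.card ≤ H.card)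
    (M : ℕ) (hM : ∀ u ∈ H, (At B C u).card ≤ M) {y1 : W} (hy1 : y1 ∈ Y) {w0 : V} (hw0 : w0 ∈ C)
    (hcond : (nb T y1).card + (H.filter (fun u => B.Adj w0 u)).card ≤ H.card)
    (hnon : ∀ S ⊆ Y, y1 ∉ S → S.Nonempty → ∀ d, 2 ≤ d → (∀ y ∈ S, d ≤ (nb T y).card) →
      ∀ α, α ≤ d * M → 2 * α ≤ C.card + d * (d - 1) → α + 1 + S.card ≤ C.card)
    (hleaf : LeafOK B C H Y) : Emb T B := by
  have hpos := nb_pos hT h2 y1
  obtain ⟨u0, hu0, hu0'⟩ : ∃ u0 ∈ H, u0 ∉ H.filter (fun u => B.Adj w0 u) := by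
    by_contra hcon
    push Not at hcon
    have := card_le_card (show H ⊆ _ from hcon)
    omega
  refine hosted hL H hH hT h2 hbip hXH M hM {y1} (by simpa using hy1) (fun _ => w0) (by simp)
    (by simpa using hw0) ?_ ⟨u0, hu0, ?_⟩ ?_ ?_ hleaf
  · intro y hy y' hy' _ _ _ _
    rw [mem_singleton] at hy hy'
    rw [hy, hy']
  · intro y _ h
    exact hu0' (mem_filter.2 ⟨hu0, h⟩)
  · intro y hy
    rw [mem_singleton] at hy
    rw [hy]
    exact hcond
  · intro S hS hSn hSne d hd hdS α h3 h4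
    rw [card_singleton]
    exact hnon S hS (fun h => hSn y1 h (mem_singleton_self _)) hSne d hd hdS α h3 h4

/-- the vertices of `Y` of the largest degrees are placed on the successors of the attachments of the
host `us` with the largest number of attachments -/
theorem topproc (hL : LC B C σ) (H : Finset V) (hH : ∀ u ∈ H, u ∉ C) (hT : T.IsTree)
    (h2 : 2 ≤ Fintype.card W) (hbip : Bip T X Y) (hXH : X.card ≤ H.card) (hXY : X.card ≤ Y.card)
    (hc : X.card + Y.card + 1 ≤ C.card) {us : V} (hus : us ∈ H) (hM2 : 2 ≤ (At B C us).card)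
    (hM : ∀ u ∈ H, (At B C u).card ≤ (At B C us).card) {y1 : W} (hy1 : y1 ∈ Y)
    (hy1max : ∀ y ∈ Y, (nb T y).card ≤ (nb T y1).card) {w1 : V} (hw1 : w1 ∈ Qs B C σ us)
    (hcond : (nb T y1).card + (H.filter (fun u => B.Adj w1 u)).card ≤ H.card)
    (hleaf : LeafOK B C H Y) : Emb T B := by
  set M := (At B C us).card with hMdef
  have hQ : (Qs B C σ us).card = M := hL.Qs_card us
  have hYpos : 1 ≤ Y.card := card_pos.2 ⟨y1, hy1⟩
  -- the top degrees
  obtain ⟨Y0, hY0, hy1Y0, hY0c, htop⟩ := top_subset (fun y => (nb T y).card) Y hy1 hy1max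
    (min (M - 2) (Y.card - 1)) (by omega)
  have hY0c' : Y0.card = M - 1 ∨ Y0 = Y := by
    rcases Nat.lt_or_ge (M - 2) (Y.card - 1) with h | h
    · left; omega
    · right
      refine eq_of_subset_of_card_le hY0 ?_
      omega
  -- the vertex we do not use
  have hne : ((Qs B C σ us).erase w1).Nonempty := by
    rw [← card_pos, card_erase_of_mem hw1]; omega
  obtain ⟨wm, hwm, hwmm⟩ := exists_max_image ((Qs B C σ us).erase w1)
    (fun w => (H.filter (fun u => B.Adj w u)).card) hne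
  set R := ((Qs B C σ us).erase w1).erase wm with hR
  have hRc : R.card = M - 2 := by
    rw [hR, card_erase_of_mem hwm, card_erase_of_mem hw1]; omega
  obtain ⟨g', hg', hgR⟩ := hall us (Y0.erase y1) (fun _ => R) (by
    intro S hS
    rcases S.eq_empty_or_nonempty with h0 | h0
    · rw [h0]; simp
    · obtain ⟨y, hy⟩ := h0
      have h3 := card_le_card hS
      rw [card_erase_of_mem hy1Y0] at h3
      have h4 : R ⊆ S.biUnion (fun _ => R) := subset_biUnion_of_mem (fun _ => R) hy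
      have h5 := card_le_card h4
      omega)
  have hRQ : ∀ w ∈ R, w ∈ Qs B C σ us := fun w hw => mem_of_mem_erase (mem_of_mem_erase hw)
  set g : W → V := fun y => if y = y1 then w1 else g' y with hg
  have hgy1 : g y1 = w1 := by simp [hg]
  have hgne : ∀ y, y ≠ y1 → g y = g' y := fun y hy => by simp [hg, hy]
  have hgQ : ∀ y ∈ Y0, g y ∈ Qs B C σ us := by
    intro y hy
    by_cases h : y = y1
    · rw [h, hgy1]; exact hw1
    · rw [hgne y h]; exact hRQ _ (hgR y (mem_erase.2 ⟨h, hy⟩))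
  have hginj : Set.InjOn g Y0 := by
    intro a ha b hb hab
    rw [mem_coe] at ha hb
    by_cases h1 : a = y1
    · by_cases h2 : b = y1
      · rw [h1, h2]
      · rw [h1, hgy1, hgne b h2] at hab
        have h3 := hgR b (mem_erase.2 ⟨h2, hb⟩)
        rw [← hab, hR, mem_erase, mem_erase] at h3
        exact absurd rfl h3.2.1
    · by_cases h2 : b = y1
      · rw [h2, hgy1, hgne a h1] at hab
        have h3 := hgR a (mem_erase.2 ⟨h1, ha⟩)
        rw [hab, hR, mem_erase, mem_erase] at h3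
        exact absurd rfl h3.2.1
      · rw [hgne a h1, hgne b h2] at hab
        exact hg' (mem_erase.2 ⟨h1, ha⟩) (mem_erase.2 ⟨h2, hb⟩) hab
  have husC := hH us hus
  refine hosted hL H hH hT h2 hbip hXH M hM Y0 hY0 g hginj (fun y hy => hL.Qs_sub us (hgQ y hy))
    ?_ ⟨us, hus, fun y hy h => hL.Qs_not husC (hgQ y hy) h.symm⟩ ?_ ?_ hleaf
  · intro y hy y' hy' u hu h3 h4
    exact hginj hy hy' (hL.Qs_one husC (hH u hu) (hgQ y hy) (hgQ y' hy') h3.symm h4.symm)
  · intro y hy
    by_cases h : y = y1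
    · rw [h, hgy1]; exact hcond
    · have h3 := hgR y (mem_erase.2 ⟨h, hy⟩)
      rw [← hgne y h] at h3
      have h4 : g y ≠ wm := fun h => by rw [h, hR] at h3; exact (notMem_erase _ _) h3
      have h5 := hwmm (g y) (mem_of_mem_erase h3)
      have h6 := hL.sum_low H hH hus
      have h7 : ∑ w ∈ ({g y, wm} : Finset V), (H.filter (fun v => B.Adj w v)).card ≤
          ∑ w ∈ Qs B C σ us, (H.filter (fun v => B.Adj w v)).card := by
        apply sum_le_sum_of_subset
        intro w hw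
        rw [mem_insert, mem_singleton] at hw
        rcases hw with rfl | rfl
        · exact hRQ _ h3
        · exact mem_of_mem_erase hwm
      rw [sum_pair h4] at h7
      have h8 := hbip.top hT h2 (S := {y1, y}) (by
        intro v hv
        rw [mem_insert, mem_singleton] at hv
        rcases hv with rfl | rfl
        · exact hy1
        · exact hY0 hy) (d := (nb T y).card) (by
        intro v hv
        rw [mem_insert, mem_singleton] at hv
        rcases hv with rfl | rfl
        · exact hy1max y (hY0 hy)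
        · exact le_rfl)
      rw [card_pair (Ne.symm h)] at h8
      have h9 := nb_pos hT h2 y
      omega
  · intro S hS hSn hSne d hd hdS α h3 h4
    rcases hY0c' with h5 | h5
    · obtain ⟨y, hy⟩ := hSne
      have hdis : Disjoint S Y0 := by
        rw [Finset.disjoint_left]; exact hSn
      have h6 := hbip.top hT h2 (S := S ∪ Y0) (union_subset hS hY0) (d := d) (by
        intro v hv
        rw [mem_union] at hv
        rcases hv with hv | hv
        · exact hdS v hv
        · exact (hdS y hy).trans (htop v hv y (hS hy) (hSn y hy)))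
      rw [card_union_of_disjoint hdis] at h6
      have h7 : 1 ≤ S.card := card_pos.2 ⟨y, hy⟩
      have h8 := nl X.card Y.card C.card (S.card + Y0.card) d M α h6 (by omega) hd h3 h4 hXY hc
      omega
    · obtain ⟨y, hy⟩ := hSne
      exact absurd (h5 ▸ hS hy) (hSn y hy)

end K3h13.TC
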