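import Pool.Agent.K3h13.TC.Std

/-!
# The exceptional case of the embedding
-/

set_option autoImplicit false
set_option linter.unusedSectionVars false

namespace K3h13.TC

open Finset R698.TC
open scoped Classical

variable {V W : Type*} [Fintype V] [Fintype W] {B : SimpleGraph V} {T : SimpleGraph W}
  {C : Finset V} {σ : V → V} {X Y : Finset W}

theorem inj_into (v0 : V) (S : Finset W) (R : Finset V) (h : S.card ≤ R.card) :
    ∃ f : W → V, Set.InjOn f S ∧ ∀ y ∈ S, f y ∈ R := by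
  refine hall v0 S (fun _ => R) ?_
  intro S' hS'
  rcases S'.eq_empty_or_nonempty with h0 | h0
  · rw [h0]; simp
  · obtain ⟨y, hy⟩ := h0
    exact ((card_le_card hS').trans h).trans
      (card_le_card (subset_biUnion_of_mem (fun _ : W => R) hy))

theorem tw1 (n z d1 β A g : ℕ) (hn : n ≤ 2 * z + 1) (hA : β + 1 ≤ A) (hAβ : A * β + 1 ≤ z)
    (hz : z + 1 ≤ d1 + β) (hg : 3 * d1 + 1 ≤ n + 2 * g) : d1 + β - z ≤ g := by
  by_contra hcon
  push Not at hcon
  have h1 : d1 + 2 ≤ 2 * β := by omega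
  have h2 : (β + 1) * β ≤ A * β := Nat.mul_le_mul_right β hA
  nlinarith

theorem tw2 (a b c z d1 β A : ℕ) (hc : c + z + 1 = 2 * (a + b)) (_hbc : 2 * b ≤ c)
    (haz : a ≤ z) (hab : a ≤ b)
    (hd1 : d1 ≤ a) (hA : β + 1 ≤ A) (hAβ : A * β + 1 ≤ z) (hz : z + 1 ≤ d1 + β) :
    2 * (b + (d1 + β - z)) ≤ c ∧ (1 + (d1 + β - z)) + 1 ≤ 2 * b := by
  have h1 : 1 ≤ β := by omega
  have h2 : (β + 1) * β ≤ A * β := Nat.mul_le_mul_right β hA
  have h3 : 2 * β + 1 ≤ z := by nlinarith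
  constructor <;> omega

/-- the exceptional case -/
theorem twisted (hL : LC B C σ) (H : Finset V) (hH : ∀ u ∈ H, u ∉ C) (hT : T.IsTree)
    (h2 : 2 ≤ Fintype.card W) (hbip : Bip T X Y) (hXH : X.card ≤ H.card) (hXY : X.card ≤ Y.card)
    (hcz : C.card + H.card + 1 = 2 * (X.card + Y.card)) (hbc : 2 * Y.card ≤ C.card)
    (hnz : X.card + Y.card ≤ 2 * H.card + 1)
    (M ν : ℕ) (hM : ∀ u ∈ H, (At B C u).card ≤ M) (hM2 : 2 ≤ M) (hMν : M * ν + 1 ≤ H.card)
    {y1 : W} (hy1 : y1 ∈ Y) (hz : H.card + 1 ≤ (nb T y1).card + ν)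
    {u' : V} (hu' : u' ∈ H) {w1 : V} (hw1 : w1 ∈ Qs B C σ u')
    (hβ : (H.filter (fun u => B.Adj w1 u)).card + 1 ≤ (At B C u').card)
    (hβ2 : (At B C u').card * (H.filter (fun u => B.Adj w1 u)).card + 1 ≤ H.card)
    (hz1 : H.card + 1 ≤ (nb T y1).card + (H.filter (fun u => B.Adj w1 u)).card) : Emb T B := by
  set N1 := H.filter (fun u => B.Adj w1 u) with hN1
  have hN1H : N1 ⊆ H := filter_subset _ _
  have hu'C := hH u' hu'
  have hw1C : w1 ∈ C := hL.Qs_sub u' hw1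
  have hnbX : nb T y1 ⊆ X := fun x hx => hbip.left hy1 (mem_nb.1 hx)
  have hd1 : (nb T y1).card ≤ X.card := card_le_card hnbX
  have hbr := hbip.branches hT hy1
  rw [← hbip.card] at hbr
  obtain ⟨htc, ht2⟩ := tw2 _ _ _ _ _ _ _ hcz hbc hXH hXY hd1 hβ hβ2 hz1
  obtain ⟨G, hGsub, hGcard⟩ := exists_subset_card_eq (tw1 _ _ _ _ _ _ hnz hβ hβ2 hz1 hbr)
  set t := (nb T y1).card + N1.card - H.card with ht
  have hGnb : ∀ x ∈ G, T.Adj y1 x := fun x hx => mem_nb.1 (mem_filter.1 (hGsub hx)).1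
  have hGgood : ∀ x ∈ G, Good T y1 x := fun x hx => (mem_filter.1 (hGsub hx)).2
  have hGX : ∀ x ∈ G, x ∈ X := fun x hx => hnbX (mem_nb.2 (hGnb x hx))
  have hGs : G ⊆ nb T y1 := fun x hx => mem_nb.2 (hGnb x hx)
  have hy1X : y1 ∉ X := hbip.notMem hy1
  -- the four injections
  obtain ⟨ξ, hξ, hξR⟩ := inj_into u' G ((Qs B C σ u').erase w1) (by
    rw [card_erase_of_mem hw1, hL.Qs_card, hGcard]; omega)
  obtain ⟨lam, hlam, hlamR⟩ := inj_into u' G N1 (by rw [hGcard]; omega)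
  have hlamI : (G.image lam).card = t := by rw [card_image_of_injOn hlam, hGcard]
  have hlamS : G.image lam ⊆ N1 := by
    intro v hv
    obtain ⟨x, hx, rfl⟩ := mem_image.1 hv
    exact hlamR x hx
  obtain ⟨f1, hf1, hf1R⟩ := inj_into u' (nb T y1 \ G) (H \ N1) (by
    rw [card_sdiff_of_subset hGs, card_sdiff_of_subset hN1H, hGcard]; omega)
  obtain ⟨f2, hf2, hf2R⟩ := inj_into u' (X \ nb T y1) (N1 \ G.image lam) (by
    rw [card_sdiff_of_subset hnbX, card_sdiff_of_subset hlamS, hlamI]; omega)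
  set par : W → W := fun w => if h : ∃ x, x ∈ G ∧ T.Adj x w then h.choose else w with hpar
  set L := G.biUnion (fun x => (nb T x).erase y1) with hLdef
  have hLmem : ∀ w, w ∈ L ↔ ∃ x ∈ G, T.Adj x w ∧ w ≠ y1 := by
    intro w
    rw [hLdef, mem_biUnion]
    constructor
    · rintro ⟨x, hx, hw⟩
      rw [mem_erase, mem_nb] at hw
      exact ⟨x, hx, hw.2, hw.1⟩
    · rintro ⟨x, hx, h3, h4⟩
      exact ⟨x, hx, mem_erase.2 ⟨h4, mem_nb.2 h3⟩⟩
  have hparL : ∀ w ∈ L, par w ∈ G ∧ T.Adj (par w) w ∧ ∀ x, T.Adj w x → x = par w := by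
    intro w hw
    obtain ⟨x, hx, hxw, hwy⟩ := (hLmem w).1 hw
    have hex : ∃ x, x ∈ G ∧ T.Adj x w := ⟨x, hx, hxw⟩
    have h3 : par w = hex.choose := by
      rw [hpar]; simp only; rw [dif_pos hex]
    have h4 := hex.choose_spec
    rw [← h3] at h4
    refine ⟨h4.1, h4.2, ?_⟩
    intro x' hx'
    have h5 := (hGgood _ h4.1).2 w h4.2 hwy
    obtain ⟨q, hq⟩ := card_eq_one.1 h5
    have h6 : x' ∈ nb T w := mem_nb.2 hx'
    have h7 : par w ∈ nb T w := mem_nb.2 h4.2.symm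
    rw [hq, mem_singleton] at h6 h7
    rw [h6, h7]
  have hLY : ∀ w ∈ L, w ∈ Y := by
    intro w hw
    obtain ⟨x, hx, hxw, hwy⟩ := (hLmem w).1 hw
    exact hbip.right (hGX x hx) hxw
  set φ : W → V := fun w => if w = y1 then w1 else if w ∈ G then ξ w else
    if w ∈ nb T y1 then f1 w else if w ∈ X then f2 w else lam (par w) with hφ
  have hφ1 : φ y1 = w1 := by simp [hφ]
  have hφ2 : ∀ w ∈ G, φ w = ξ w := by
    intro w hw
    have : w ≠ y1 := fun h => hy1X (h ▸ hGX w hw)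
    simp [hφ, this, hw]
  have hφ3 : ∀ w ∈ nb T y1, w ∉ G → φ w = f1 w := by
    intro w hw hwG
    have : w ≠ y1 := fun h => hy1X (h ▸ hnbX hw)
    simp [hφ, this, hw, hwG]
  have hφ4 : ∀ w ∈ X, w ∉ nb T y1 → φ w = f2 w := by
    intro w hw hwn
    have h3 : w ≠ y1 := fun h => hy1X (h ▸ hw)
    have h4 : w ∉ G := fun h => hwn (hGs h)
    simp [hφ, h3, hw, hwn, h4]
  have hφ5 : ∀ w ∈ L, φ w = lam (par w) := by
    intro w hw
    have h3 : w ≠ y1 := by
      obtain ⟨x, hx, hxw, hwy⟩ := (hLmem w).1 hw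
      exact hwy
    have h4 : w ∉ X := hbip.notMem (hLY w hw)
    have h5 : w ∉ nb T y1 := fun h => h4 (hnbX h)
    have h6 : w ∉ G := fun h => h5 (hGs h)
    simp [hφ, h3, h4, h5, h6]
  have hLy1 : y1 ∉ L := fun h => by
    obtain ⟨x, hx, hxw, hwy⟩ := (hLmem y1).1 h
    exact hwy rfl
  set D := X ∪ insert y1 L with hD
  have hDcases : ∀ w ∈ D, w = y1 ∨ w ∈ G ∨ (w ∈ nb T y1 ∧ w ∉ G) ∨ (w ∈ X ∧ w ∉ nb T y1) ∨
      w ∈ L := by
    intro w hw
    rw [hD, mem_union, mem_insert] at hw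
    rcases hw with hw | hw | hw
    · by_cases h3 : w ∈ G
      · exact Or.inr (Or.inl h3)
      · by_cases h4 : w ∈ nb T y1
        · exact Or.inr (Or.inr (Or.inl ⟨h4, h3⟩))
        · exact Or.inr (Or.inr (Or.inr (Or.inl ⟨hw, h4⟩)))
    · exact Or.inl hw
    · exact Or.inr (Or.inr (Or.inr (Or.inr hw)))
  have hlamN : ∀ x ∈ G, lam x ∈ N1 ∧ lam x ∉ C := fun x hx =>
    ⟨hlamR x hx, hH _ (hN1H (hlamR x hx))⟩
  -- an invariant of the images
  set ix : V → ℕ := fun v => if v = w1 then 0 else if v ∈ C then 1 else if v ∉ N1 then 2 else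
    if v ∉ G.image lam then 3 else 4 with hix
  have ix1 : ix (φ y1) = 0 := by simp [hix, hφ1]
  have ix2 : ∀ w ∈ G, ix (φ w) = 1 := by
    intro w hw
    have h3 := hξR w hw
    rw [mem_erase] at h3
    have h4 := hL.Qs_sub u' h3.2
    simp [hix, hφ2 w hw, h3.1, h4]
  have ix3 : ∀ w ∈ nb T y1, w ∉ G → ix (φ w) = 2 := by
    intro w hw hwG
    have h3 := hf1R w (mem_sdiff.2 ⟨hw, hwG⟩)
    rw [mem_sdiff] at h3
    have h4 := hH _ h3.1
    have h5 : f1 w ≠ w1 := fun h => h4 (h ▸ hw1C)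
    simp [hix, hφ3 w hw hwG, h5, h4, h3.2]
  have ix4 : ∀ w ∈ X, w ∉ nb T y1 → ix (φ w) = 3 := by
    intro w hw hwn
    have h3 := hf2R w (mem_sdiff.2 ⟨hw, hwn⟩)
    rw [mem_sdiff] at h3
    have h4 := hH _ (hN1H h3.1)
    have h5 : f2 w ≠ w1 := fun h => h4 (h ▸ hw1C)
    simp only [hix, hφ4 w hw hwn]
    rw [if_neg h5, if_neg h4, if_neg (not_not.2 h3.1), if_pos h3.2]
  have ix5 : ∀ w ∈ L, ix (φ w) = 4 := by
    intro w hw
    have h3 := hlamN _ (hparL w hw).1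
    have h5 : lam (par w) ≠ w1 := fun h => h3.2 (h ▸ hw1C)
    simp only [hix, hφ5 w hw]
    rw [if_neg h5, if_neg h3.2, if_neg (not_not.2 h3.1),
      if_neg (not_not.2 (mem_image_of_mem _ (hparL w hw).1))]
  have hinj : Set.InjOn φ D := by
    intro a ha b hb hab
    rw [mem_coe] at ha hb
    have hixab : ix (φ a) = ix (φ b) := by rw [hab]
    rcases hDcases a ha with h3 | h3 | h3 | h3 | h3 <;>
      rcases hDcases b hb with h4 | h4 | h4 | h4 | h4
    · rw [h3, h4]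
    · rw [h3, ix1, ix2 b h4] at hixab; omega
    · rw [h3, ix1, ix3 b h4.1 h4.2] at hixab; omega
    · rw [h3, ix1, ix4 b h4.1 h4.2] at hixab; omega
    · rw [h3, ix1, ix5 b h4] at hixab; omega
    · rw [h4, ix1, ix2 a h3] at hixab; omega
    · rw [hφ2 a h3, hφ2 b h4] at hab
      exact hξ h3 h4 hab
    · rw [ix2 a h3, ix3 b h4.1 h4.2] at hixab; omega
    · rw [ix2 a h3, ix4 b h4.1 h4.2] at hixab; omega
    · rw [ix2 a h3, ix5 b h4] at hixab; omega
    · rw [h4, ix1, ix3 a h3.1 h3.2] at hixab; omega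
    · rw [ix3 a h3.1 h3.2, ix2 b h4] at hixab; omega
    · rw [hφ3 a h3.1 h3.2, hφ3 b h4.1 h4.2] at hab
      exact hf1 (mem_sdiff.2 h3) (mem_sdiff.2 h4) hab
    · rw [ix3 a h3.1 h3.2, ix4 b h4.1 h4.2] at hixab; omega
    · rw [ix3 a h3.1 h3.2, ix5 b h4] at hixab; omega
    · rw [h4, ix1, ix4 a h3.1 h3.2] at hixab; omega
    · rw [ix4 a h3.1 h3.2, ix2 b h4] at hixab; omega
    · rw [ix4 a h3.1 h3.2, ix3 b h4.1 h4.2] at hixab; omega
    · rw [hφ4 a h3.1 h3.2, hφ4 b h4.1 h4.2] at hab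
      exact hf2 (mem_sdiff.2 h3) (mem_sdiff.2 h4) hab
    · rw [ix4 a h3.1 h3.2, ix5 b h4] at hixab; omega
    · rw [h4, ix1, ix5 a h3] at hixab; omega
    · rw [ix5 a h3, ix2 b h4] at hixab; omega
    · rw [ix5 a h3, ix3 b h4.1 h4.2] at hixab; omega
    · rw [ix5 a h3, ix4 b h4.1 h4.2] at hixab; omega
    · rw [hφ5 a h3, hφ5 b h4] at hab
      have h5 := hparL a h3
      have h6 := hparL b h4
      have h7 := hlam h5.1 h6.1 hab
      -- `a` and `b` are neighbours of the same vertex of degree at most two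
      have h8 := (hGgood _ h5.1).1
      have h9 : ((nb T (par a)).erase y1).card ≤ 1 := by
        rw [card_erase_of_mem (mem_nb.2 (hGnb _ h5.1).symm)]; omega
      have ha1 : a ≠ y1 := fun h => hLy1 (h ▸ h3)
      have hb1 : b ≠ y1 := fun h => hLy1 (h ▸ h4)
      exact card_le_one.1 h9 a (mem_erase.2 ⟨ha1, mem_nb.2 h5.2.1⟩) b
        (mem_erase.2 ⟨hb1, mem_nb.2 (h7 ▸ h6.2.1)⟩)
  -- edges between `X` and the placed part of `Y`
  have hedge : ∀ x ∈ X, ∀ y ∈ insert y1 L, T.Adj x y → ¬ B.Adj (φ x) (φ y) := by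
    intro x hx y hy hxy
    rw [mem_insert] at hy
    rcases hy with rfl | hy
    · have hxn : x ∈ nb T y := mem_nb.2 hxy.symm
      rw [hφ1]
      by_cases hxG : x ∈ G
      · rw [hφ2 x hxG]
        have h3 := hξR x hxG
        rw [mem_erase] at h3
        exact hL.Qs_clique hu'C h3.2 hw1
      · rw [hφ3 x hxn hxG]
        have h3 := hf1R x (mem_sdiff.2 ⟨hxn, hxG⟩)
        rw [mem_sdiff] at h3
        intro h4
        exact h3.2 (mem_filter.2 ⟨h3.1, h4.symm⟩)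
    · have h3 := hparL y hy
      have h4 := h3.2.2 x hxy.symm
      have hxG : x ∈ G := h4 ▸ h3.1
      rw [hφ5 y hy, ← h4, hφ2 x hxG]
      intro h5
      have h6 := hlamR x hxG
      rw [hN1, mem_filter] at h6
      have h7 := hξR x hxG
      rw [mem_erase] at h7
      exact h7.1 (hL.Qs_one hu'C (hH _ h6.1) h7.2 hw1 h5.symm h6.2.symm)
  have hk : ((D.image φ) ∩ C).card ≤ 1 + t := by
    have h3 : (D.image φ) ∩ C ⊆ insert w1 (G.image ξ) := by
      intro v hv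
      rw [mem_inter] at hv
      obtain ⟨w, hw, rfl⟩ := mem_image.1 hv.1
      have hvC := hv.2
      rw [mem_insert]
      rcases hDcases w hw with h3 | h3 | h3 | h3 | h3
      · left; rw [h3, hφ1]
      · right; rw [hφ2 w h3]; exact mem_image_of_mem _ h3
      · rw [hφ3 w h3.1 h3.2] at hvC
        exact absurd hvC (hH _ (mem_sdiff.1 (hf1R w (mem_sdiff.2 h3))).1)
      · rw [hφ4 w h3.1 h3.2] at hvC
        exact absurd hvC (hH _ (hN1H (mem_sdiff.1 (hf2R w (mem_sdiff.2 h3))).1))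
      · rw [hφ5 w h3] at hvC
        exact absurd hvC (hlamN _ (hparL w h3).1).2
    refine (card_le_card h3).trans ((card_insert_le _ _).trans ?_)
    have := card_image_le (s := G) (f := ξ)
    omega
  have hDc : (Dᶜ).card + 1 ≤ Y.card := by
    have h3 : Dᶜ ⊆ Y.erase y1 := by
      intro y hy
      rw [mem_compl, hD, mem_union, not_or, mem_insert, not_or] at hy
      rw [mem_erase]
      exact ⟨hy.2.1, (hbip.cover y).resolve_left hy.1⟩
    have h4 := card_le_card h3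
    rw [card_erase_of_mem hy1] at h4
    have : 0 < Y.card := card_pos.2 ⟨y1, hy1⟩
    omega
  refine finish hL u' H hH hT h2 hbip D subset_union_left φ hinj ?_ (1 + t) hk ?_ M hM ?_ ?_
  · intro x hx y hy hxy
    rw [hD, mem_union] at hx hy
    rcases hbip.adj x y hxy with ⟨h3, h4⟩ | ⟨h3, h4⟩
    · exact hedge x h3 y (hy.resolve_left (hbip.notMem h4)) hxy
    · exact fun h => hedge y h4 x (hx.resolve_left (hbip.notMem h3)) hxy.symm h.symm
  · intro y hy x hyx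
    rw [hD, mem_union, not_or, mem_insert, not_or] at hy
    have hyY := (hbip.cover y).resolve_left hy.1
    have hx := hbip.left hyY hyx
    have hxG : x ∉ G := fun h => hy.2.2 ((hLmem y).2 ⟨x, h, hyx.symm, hy.2.1⟩)
    by_cases hxn : x ∈ nb T y1
    · rw [hφ3 x hxn hxG]
      exact (mem_sdiff.1 (hf1R x (mem_sdiff.2 ⟨hxn, hxG⟩))).1
    · rw [hφ4 x hx hxn]
      exact hN1H (mem_sdiff.1 (hf2R x (mem_sdiff.2 ⟨hx, hxn⟩))).1
  · intro S hS hSn hSne d hd hdS α h3 _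
    have h4 : S ⊆ Y.erase y1 := by
      intro y hy
      rw [mem_erase]
      refine ⟨?_, hS hy⟩
      rintro rfl
      apply hSn y hy
      rw [hD]
      exact mem_union_right _ (mem_insert_self _ _)
    have h5 := hbip.top' hT h2 hy1 h4 hdS
    obtain ⟨s, rfl⟩ : ∃ s, d = s + 1 := ⟨d - 1, by omega⟩
    exact ex_arith X.card Y.card C.card H.card M ν (nb T y1).card S.card s α (1 + t) hcz hXH hM2 hMν
      hd1 hz (card_pos.2 hSne) (by omega) h5 h3 (by omega)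
  · intro u hu
    exact leaf1 hL D φ (1 + t) hk (by omega) (hH u hu)

end K3h13.TC
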